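import Pool.Agent.Helper54.ETRDefs

namespace Pool.Agent.Helper54.ETR

/-- Replace every variable `x_i` of a term by `x_{f i}`. -/
def Term.ren (f : ℕ → ℕ) : Term → Term
  | zero => zero
  | one => one
  | var i => var (f i)
  | add s t => add (s.ren f) (t.ren f)
  | sub s t => sub (s.ren f) (t.ren f)
  | mul s t => mul (s.ren f) (t.ren f)

/-- Replace every variable `x_i` of a formula by `x_{f i}`. -/
def Form.ren (f : ℕ → ℕ) : Form → Form
  | lt s t => lt (s.ren f) (t.ren f)
  | le s t => le (s.ren f) (t.ren f)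
  | eq s t => eq (s.ren f) (t.ren f)
  | ge s t => ge (s.ren f) (t.ren f)
  | gt s t => gt (s.ren f) (t.ren f)
  | and p q => and (p.ren f) (q.ren f)
  | or p q => or (p.ren f) (q.ren f)
  | not p => not (p.ren f)

/-- The term contains no multiplication. -/
def Term.Lin : Term → Prop
  | zero => True
  | one => True
  | var _ => True
  | add s t => s.Lin ∧ t.Lin
  | sub s t => s.Lin ∧ t.Lin
  | mul _ _ => False

/-- Formulas over the relations `Γ`: Boolean combinations of comparisons of two linear terms and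
of instances `ρ(x_{f 0}, x_{f 1}, …)` of the formulas `ρ` in `Γ`. -/
inductive Over (Γ : List Form) : Form → Prop
  | lt {s t : Term} : s.Lin → t.Lin → Over Γ (Form.lt s t)
  | le {s t : Term} : s.Lin → t.Lin → Over Γ (Form.le s t)
  | eq {s t : Term} : s.Lin → t.Lin → Over Γ (Form.eq s t)
  | ge {s t : Term} : s.Lin → t.Lin → Over Γ (Form.ge s t)
  | gt {s t : Term} : s.Lin → t.Lin → Over Γ (Form.gt s t)
  | rel {ρ : Form} (f : ℕ → ℕ) : ρ ∈ Γ → Over Γ (ρ.ren f)
  | and {p q : Form} : Over Γ p → Over Γ q → Over Γ (Form.and p q)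
  | or {p q : Form} : Over Γ p → Over Γ q → Over Γ (Form.or p q)
  | not {p : Form} : Over Γ p → Over Γ (Form.not p)

/-- Conjunctions of constraints of the forms `x_i = 1`, `x_i + x_j = x_k`, `x_i ≤ x_j`,
`ρ(x_{f 0}, x_{f 1}, …)` and `¬ ρ(x_{f 0}, x_{f 1}, …)` with `ρ ∈ Γ`. -/
inductive Cons (Γ : List Form) : Form → Prop
  | one (i : ℕ) : Cons Γ (Form.eq (Term.var i) Term.one)
  | add (i j k : ℕ) : Cons Γ (Form.eq (Term.add (Term.var i) (Term.var j)) (Term.var k))
  | le (i j : ℕ) : Cons Γ (Form.le (Term.var i) (Term.var j))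
  | pos {ρ : Form} (f : ℕ → ℕ) : ρ ∈ Γ → Cons Γ (ρ.ren f)
  | neg {ρ : Form} (f : ℕ → ℕ) : ρ ∈ Γ → Cons Γ (Form.not (ρ.ren f))
  | and {p q : Form} : Cons Γ p → Cons Γ q → Cons Γ (Form.and p q)

/-- The relation defined by `ρ` is semilinear: there are finitely many affine functions with real
algebraic coefficients whose signs at `x` determine whether `ρ` holds at `x`. -/
def SemiLin (ρ : Form) : Prop :=
  ∃ (m n : ℕ) (a : Fin m → ℕ → ℝ), (∀ i j, IsAlgebraic ℚ (a i j)) ∧ ∀ x y : ℕ → ℝ,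
    (∀ i, SignType.sign (a i 0 + ∑ j ∈ Finset.range n, a i (j + 1) * x j) =
      SignType.sign (a i 0 + ∑ j ∈ Finset.range n, a i (j + 1) * y j)) →
    (ρ.Holds x ↔ ρ.Holds y)

end Pool.Agent.Helper54.ETR
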