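import Pool.Agent.Helper54.DI.Defs

namespace Pool.Agent.Helper54.ETR

/-- The formula is built from equations by `∧` and `∨`. -/
def Form.Algebraic : Form → Prop
  | eq _ _ => True
  | and p q => p.Algebraic ∧ q.Algebraic
  | or p q => p.Algebraic ∧ q.Algebraic
  | _ => False

/-- Conjunctions of constraints `x_i = 1`, `x_i + x_j = x_k`, `x_i ≤ x_j`, `ρ(x_{f 0}, x_{f 1}, …)`
with `ρ ∈ P` and `¬ ρ(x_{f 0}, x_{f 1}, …)` with `ρ ∈ N`. -/
inductive Constr (P N : List Form) : Form → Prop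
  | one (i : ℕ) : Constr P N (Form.eq (Term.var i) Term.one)
  | add (i j k : ℕ) : Constr P N (Form.eq (Term.add (Term.var i) (Term.var j)) (Term.var k))
  | le (i j : ℕ) : Constr P N (Form.le (Term.var i) (Term.var j))
  | pos {ρ : Form} (f : ℕ → ℕ) : ρ ∈ P → Constr P N (ρ.ren f)
  | neg {ρ : Form} (f : ℕ → ℕ) : ρ ∈ N → Constr P N (Form.not (ρ.ren f))
  | and {p q : Form} : Constr P N p → Constr P N q → Constr P N (Form.and p q)

end Pool.Agent.Helper54.ETR
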