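import Pool.Agent.Helper54.DI.Defs2

namespace Pool.Agent.Helper54.ETR

/-- Polynomial-time many-one reducibility. -/
def PolyRed (L M : Set (List Bool)) : Prop :=
  ∃ f : List Bool → List Bool,
    Nonempty (Turing.TM2ComputableInPolyTime (fun l : List Bool => l) (fun l => l) f) ∧
    ∀ u, u ∈ L ↔ f u ∈ M

/-- The existential theory of the reals. -/
def ETR : Set (List Bool) := {u | ∃ φ : Form, u = φ.code ∧ ∃ x : ℕ → ℝ, φ.Holds x}

/-- The true existential sentences whose matrix is a formula over the relations `Γ`. -/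
def SAT (Γ : List Form) : Set (List Bool) :=
  {u | ∃ φ : Form, u = φ.code ∧ Over Γ φ ∧ ∃ x : ℕ → ℝ, φ.Holds x}

/-- The solvable conjunctions of constraints over `P`, `N`. -/
def CSP (P N : List Form) : Set (List Bool) :=
  {u | ∃ φ : Form, u = φ.code ∧ Constr P N φ ∧ ∃ x : ℕ → ℝ, φ.Holds x}

end Pool.Agent.Helper54.ETR
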