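import Pool.Agent.Helper54.DI.StmtsB

namespace Pool.Agent.Helper54.DI

open Pool.Agent.Helper54.ETR Pool.Agent.Helper54.Poly

theorem below_mono {k n : ℕ} (h : k ≤ n) (t : Term) (ht : t.Below k) : t.Below n := by
  induction t with
  | zero => trivial
  | one => trivial
  | var i => exact lt_of_lt_of_le ht h
  | add a b iha ihb | sub a b iha ihb | mul a b iha ihb => exact ⟨iha ht.1, ihb ht.2⟩

theorem exists_below (t : Term) : ∃ k, t.Below k := by
  induction t with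
  | zero => exact ⟨0, trivial⟩
  | one => exact ⟨0, trivial⟩
  | var i => exact ⟨i + 1, Nat.lt_succ_self i⟩
  | add a b iha ihb | sub a b iha ihb | mul a b iha ihb =>
    obtain ⟨k, hk⟩ := iha
    obtain ⟨n, hn⟩ := ihb
    exact ⟨max k n, below_mono (le_max_left _ _) _ hk, below_mono (le_max_right _ _) _ hn⟩

theorem exists_fbelow (p : Form) : ∃ k, FBelow k p := by
  have key : ∀ l : List (Term × Term), ∃ k, ∀ a ∈ l, a.1.Below k ∧ a.2.Below k := by
    intro l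
    induction l with
    | nil => exact ⟨0, fun a ha => absurd ha (List.not_mem_nil)⟩
    | cons a l ih =>
      obtain ⟨k, hk⟩ := ih
      obtain ⟨i, hi⟩ := exists_below a.1
      obtain ⟨j, hj⟩ := exists_below a.2
      refine ⟨k + i + j, fun b hb => ?_⟩
      rcases List.mem_cons.1 hb with h | h
      · rw [h]
        exact ⟨below_mono (by omega) _ hi, below_mono (by omega) _ hj⟩
      · exact ⟨below_mono (by omega) _ (hk b h).1, below_mono (by omega) _ (hk b h).2⟩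
  exact key p.atoms

/-- the dichotomy -/
def ST_MAIN : Prop := ∀ Γ : List Form,
  ((∀ ρ ∈ Γ, SemiLin ρ) →
    InNP {u | ∃ φ : Form, u = φ.code ∧ Over Γ φ ∧ ∃ x : ℕ → ℝ, φ.Holds x}) ∧
  ((∃ ρ ∈ Γ, ¬ SemiLin ρ) → ∃ f : List Bool → List Bool,
    Nonempty (Turing.TM2ComputableInPolyTime (fun l : List Bool => l) (fun l => l) f) ∧
    ∀ u, ∃ φ : Form, f u = φ.code ∧ Cons Γ φ ∧
      ((∃ ψ : Form, u = ψ.code ∧ ∃ x : ℕ → ℝ, ψ.Holds x) ↔ ∃ x : ℕ → ℝ, φ.Holds x)) ∧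
  ∃ g : List Bool → List Bool,
    Nonempty (Turing.TM2ComputableInPolyTime (fun l : List Bool => l) (fun l => l) g) ∧
    ∀ u, (∃ φ : Form, u = φ.code ∧ Over Γ φ ∧ ∃ x : ℕ → ℝ, φ.Holds x) ↔
      ∃ φ : Form, g u = φ.code ∧ ∃ x : ℕ → ℝ, φ.Holds x

theorem st_MAIN (hG : ST_GEO) (hD : ST_GAD) (hH : ST_HARD) (hF : ST_SAF) (hL : ST_SLF)
    (hN : ST_NP) (hB : ST_BACK) : ST_MAIN := by
  intro Γ
  refine ⟨hN Γ, ?_, hB Γ⟩
  rintro ⟨ρ, hρ, hns⟩
  obtain ⟨k, hk⟩ := exists_fbelow ρ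
  exact hH Γ (hD Γ ρ k hρ hk (hG k _ (hF ρ k hk) fun h => hns (hL ρ k hk h)))

end Pool.Agent.Helper54.DI
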