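import Pool.Agent.Helper54.DI.StmtsB

namespace Pool.Agent.Helper54.DI

open Pool.Agent.Helper54.ETR Pool.Agent.Helper54.Poly

/-- an unsatisfiable formula -/
def fls : Form := Form.lt Term.zero Term.zero

theorem fls_not (x : ℕ → ℝ) : ¬ fls.Holds x := by
  simp [fls, Form.Holds, Term.eval]

theorem st_NP (hO : ST_OKF) (hT : ST_TAU) (hS : ST_TRS) (hP : ST_TRP) : ST_NP := by
  intro Γ hΓ
  obtain ⟨s, α, δ, D, hδ, hδα, hD, hz⟩ := hT Γ hΓ
  obtain ⟨V, W, hV, hW, hV1, hW1⟩ := hP Γ s D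
  have hTS := hS Γ s α δ D hδ hδα hD hz
  have hf : PT (fun u : List Bool => if V u then (Tok.and :: (δ.toks ++ W u)).flatMap Tok.bits
      else fls.code) :=
    PT.ite hV (PTbits (PT.lcons (PT.const _) (PT.append (PT.const _) hW))) (PT.const _)
  have h1 := inNP_reduce (frag_inNP s 0) hf
  have h2 : {u : List Bool | (if V u then (Tok.and :: (δ.toks ++ W u)).flatMap Tok.bits
      else fls.code) ∈ {u | ∃ φ : Form, u = φ.code ∧ φ.Frag s 0 ∧ ∃ x : ℕ → ℝ, φ.Holds x}} =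
      {u | ∃ φ : Form, u = φ.code ∧ Over Γ φ ∧ ∃ x : ℕ → ℝ, φ.Holds x} := by
    ext u
    change (∃ φ : Form, (if V u then (Tok.and :: (δ.toks ++ W u)).flatMap Tok.bits
      else fls.code) = φ.code ∧ φ.Frag s 0 ∧ ∃ x : ℕ → ℝ, φ.Holds x) ↔
      ∃ φ : Form, u = φ.code ∧ Over Γ φ ∧ ∃ x : ℕ → ℝ, φ.Holds x
    by_cases h : V u = true
    · rw [if_pos h]
      obtain ⟨φ, hφ, hok⟩ := (hV1 u).1 h
      have e1 : (Tok.and :: (δ.toks ++ W u)).flatMap Tok.bits =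
          (Form.and δ (trF s D φ)).code := by
        rw [hφ, hW1 φ hok]; rfl
      obtain ⟨hF, hE⟩ := hTS φ hok
      rw [e1]
      constructor
      · rintro ⟨ψ, hψ, -, x, hx⟩
        rw [← code_injective hψ] at hx
        exact ⟨φ, hφ, (hO Γ φ).1 hok, hE.1 ⟨x, hx⟩⟩
      · rintro ⟨ψ, hψ, -, x, hx⟩
        have e2 : ψ = φ := code_injective (hψ.symm.trans hφ)
        rw [e2] at hx
        obtain ⟨y, hy⟩ := hE.2 ⟨x, hx⟩
        exact ⟨_, rfl, hF, y, hy⟩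
    · rw [if_neg h]
      constructor
      · rintro ⟨ψ, hψ, -, x, hx⟩
        rw [← code_injective hψ] at hx
        exact absurd hx (fls_not x)
      · rintro ⟨ψ, hψ, hov, x, hx⟩
        exact absurd ((hV1 u).2 ⟨ψ, hψ, (hO Γ ψ).2 hov⟩) h
  rwa [h2] at h1

theorem st_BACK (hO : ST_OKF) (hP : ST_TRP) : ST_BACK := by
  intro Γ
  obtain ⟨V, W, hV, hW, hV1, hW1⟩ := hP Γ 0 []
  have hf : PT (fun u : List Bool => if V u then u else fls.code) :=
    PT.ite hV PT.id (PT.const _)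
  refine ⟨fun u => if V u then u else fls.code, polytime_list (fun l : List Bool => l) _
    (fun l => (if V l then l else fls.code).reverse) (PT.reverse hf) fun _ => rfl, ?_⟩
  intro u
  change (∃ φ : Form, u = φ.code ∧ Over Γ φ ∧ ∃ x : ℕ → ℝ, φ.Holds x) ↔
    ∃ φ : Form, (if V u then u else fls.code) = φ.code ∧ ∃ x : ℕ → ℝ, φ.Holds x
  by_cases h : V u = true
  · rw [if_pos h]
    obtain ⟨φ, hφ, hok⟩ := (hV1 u).1 h
    constructor
    · rintro ⟨ψ, hψ, -, x, hx⟩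
      exact ⟨ψ, hψ, x, hx⟩
    · rintro ⟨ψ, hψ, x, hx⟩
      have e2 : ψ = φ := code_injective (hψ.symm.trans hφ)
      exact ⟨ψ, hψ, by rw [e2]; exact (hO Γ φ).1 hok, x, hx⟩
  · rw [if_neg h]
    constructor
    · rintro ⟨ψ, hψ, hov, x, hx⟩
      exact absurd ((hV1 u).2 ⟨ψ, hψ, (hO Γ ψ).2 hov⟩) h
    · rintro ⟨ψ, hψ, x, hx⟩
      rw [← code_injective hψ] at hx
      exact absurd hx (fls_not x)

end Pool.Agent.Helper54.DI
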