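import Mathlib

/-! Statements of the geometric part of the dichotomy theorem. -/

namespace Pool.Agent.Helper54.DI

open Finset Filter Topology

/-- the field of real algebraic numbers -/
noncomputable abbrev KK : IntermediateField ℚ ℝ := algebraicClosure ℚ ℝ

/-- affine forms on `ℝ^d` with real algebraic coefficients -/
abbrev KForm (d : ℕ) := (Fin d → KK) × KK

/-- value of an affine form -/
noncomputable def kev {d : ℕ} (f : KForm d) (x : Fin d → ℝ) : ℝ :=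
  ∑ i, (f.1 i : ℝ) * x i + (f.2 : ℝ)

/-- normalized affine maps `ℝ^d → ℝ^k`: the coordinates `I j` of the value are the `x j` -/
structure NM (d k : ℕ) where
  M : Fin k → Fin d → KK
  v : Fin k → KK
  I : Fin d → Fin k
  hM : ∀ j, M (I j) = Pi.single j 1
  hv : ∀ j, v (I j) = 0

/-- value of a normalized affine map -/
noncomputable def nev {d k : ℕ} (ι : NM d k) (x : Fin d → ℝ) : Fin k → ℝ :=
  fun i => ∑ j, (ι.M i j : ℝ) * x j + (ι.v i : ℝ)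

/-- sets defined by sign conditions on finitely many polynomials over `KK` -/
def SA {d : ℕ} (A : Set (Fin d → ℝ)) : Prop :=
  ∃ G : List (MvPolynomial (Fin d) KK), ∀ x y : Fin d → ℝ,
    (∀ g ∈ G, SignType.sign (MvPolynomial.aeval x g) = SignType.sign (MvPolynomial.aeval y g)) →
    (x ∈ A ↔ y ∈ A)

/-- semilinear sets -/
def SLin {d : ℕ} (A : Set (Fin d → ℝ)) : Prop :=
  ∃ F : List (KForm d), ∀ x y : Fin d → ℝ,
    (∀ f ∈ F, SignType.sign (kev f x) = SignType.sign (kev f y)) → (x ∈ A ↔ y ∈ A)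

/-- sets covered by finitely many hyperplanes -/
def Cov {d : ℕ} (B : Set (Fin d → ℝ)) : Prop :=
  ∃ F : List (KForm d), (∀ f ∈ F, f.1 ≠ 0) ∧ ∀ x ∈ B, ∃ f ∈ F, kev f x = 0

/-- composition of normalized maps -/
noncomputable def ncomp {d j k : ℕ} (ψ : NM j k) (φ : NM d j) : NM d k where
  M i l := ∑ t, ψ.M i t * φ.M t l
  v i := ∑ t, ψ.M i t * φ.v t + ψ.v i
  I l := ψ.I (φ.I l)
  hM l := by
    funext m
    rw [ψ.hM]
    simp only [Pi.single_apply, ite_mul, one_mul, zero_mul, Finset.sum_ite_eq', Finset.mem_univ,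
      if_true]
    rw [φ.hM, Pi.single_apply]
  hv l := by
    rw [ψ.hM, ψ.hv]
    simp only [Pi.single_apply, ite_mul, one_mul, zero_mul, Finset.sum_ite_eq', Finset.mem_univ,
      if_true]
    rw [φ.hv, add_zero]

/-- the identity -/
noncomputable def nid (k : ℕ) : NM k k where
  M i := Pi.single i 1
  v _ := 0
  I j := j
  hM _ := rfl
  hv _ := rfl

def ST_NCOMP : Prop := ∀ (d j k : ℕ) (ψ : NM j k) (φ : NM d j) (x : Fin d → ℝ),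
  nev (ncomp ψ φ) x = nev ψ (nev φ x)

def ST_NID : Prop := ∀ (k : ℕ) (x : Fin k → ℝ), nev (nid k) x = x

/-- basic facts on normalized maps -/
def ST_NB : Prop := ∀ (d k : ℕ) (ι : NM d k), Continuous (nev ι) ∧
  (∀ x j, nev ι x (ι.I j) = x j) ∧
  (∀ x y : Fin d → ℝ, ∀ a b : ℝ, a + b = 1 → nev ι (a • x + b • y) = a • nev ι x + b • nev ι y)

/-- hyperplanes are images of normalized maps -/
def ST_HYP : Prop := ∀ (d : ℕ) (f : KForm (d + 1)) (l : Fin (d + 1)), f.1 l ≠ 0 →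
  ∃ κ : NM d (d + 1), κ.I = l.succAbove ∧ (∀ x, kev f (nev κ x) = 0) ∧
    ∀ p, kev f p = 0 → nev κ (fun j => p (l.succAbove j)) = p

/-- membership is constant along segments that avoid the frontier -/
def ST_SEG : Prop := ∀ (d : ℕ) (A : Set (Fin d → ℝ)) (x y : Fin d → ℝ),
  (∀ t ∈ segment ℝ x y, t ∉ frontier A) → (x ∈ A ↔ y ∈ A)

/-- a set all of whose flat sections have frontiers covered by hyperplanes is semilinear -/
def ST_SLIN : Prop := ∀ (k : ℕ) (A : Set (Fin k → ℝ)),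
  (∀ (d : ℕ) (ι : NM d k), Cov (frontier (nev ι ⁻¹' A))) → SLin A

/-- conical structure along a flat all of whose proper superflats are good -/
def ST_CONE : Prop := ∀ (k d : ℕ) (A : Set (Fin k → ℝ)),
  (∀ (d' : ℕ) (ι : NM d' k), d < d' → Cov (frontier (nev ι ⁻¹' A))) →
  ∀ φ : NM d k, ∃ (H : List (KForm k)) (Z : List (KForm d)),
    (∀ h ∈ H, ∀ x, kev h (nev φ x) = 0) ∧
    (∀ p, (∀ h ∈ H, kev h p = 0) → p ∈ Set.range (nev φ)) ∧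
    (∀ z ∈ Z, z.1 ≠ 0) ∧
    ∀ w : Fin d → ℝ, (∀ z ∈ Z, kev z w ≠ 0) → ∃ ε > 0,
      ∀ p ∈ Metric.ball (nev φ w) ε, ∀ q ∈ Metric.ball (nev φ w) ε,
        p ∉ Set.range (nev φ) → q ∉ Set.range (nev φ) →
        (∀ h ∈ H, SignType.sign (kev h p) = SignType.sign (kev h q)) → (p ∈ A ↔ q ∈ A)

/-- polynomial of an affine form -/
noncomputable def toP {d : ℕ} (f : KForm d) : MvPolynomial (Fin d) KK :=
  ∑ i, MvPolynomial.C (f.1 i) * MvPolynomial.X i + MvPolynomial.C f.2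

def ST_TOP : Prop := ∀ (d : ℕ) (f : KForm d) (x : Fin d → ℝ),
  MvPolynomial.aeval x (toP f) = kev f x

/-- a prime ideal attached to a set that is not covered by finitely many hyperplanes -/
def ST_Z1 : Prop := ∀ (d : ℕ) (B : Set (Fin d → ℝ)), ¬ Cov B →
  ∀ Z : List (KForm d), (∀ z ∈ Z, z.1 ≠ 0) →
  ∃ (H : List (KForm d)) (P : Ideal (MvPolynomial (Fin d) KK)) (c : MvPolynomial (Fin d) KK),
    (∀ h ∈ H, h.1 ≠ 0) ∧ (∀ z ∈ Z, z ∈ H) ∧ P.IsPrime ∧ c ∉ P ∧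
    (∀ g ∈ P, ∀ x ∈ B, (∀ h ∈ H, kev h x ≠ 0) → MvPolynomial.aeval x c ≠ 0 →
      MvPolynomial.aeval x g = 0) ∧
    (∀ h, h ∉ P → ∃ x ∈ B, (∀ h' ∈ H, kev h' x ≠ 0) ∧ MvPolynomial.aeval x c ≠ 0 ∧
      MvPolynomial.aeval x h ≠ 0) ∧
    ∀ f : KForm d, f.1 ≠ 0 → toP f ∉ P

/-- the point whose coordinates in `J` are those of `x` -/
def res {d : ℕ} (J : Finset (Fin d)) (x : Fin d → ℝ) : J → ℝ := fun j => x j

/-- value of a polynomial in one variable over the polynomial ring in the variables of `J` -/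
noncomputable def pev {d : ℕ} (J : Finset (Fin d)) (m : Polynomial (MvPolynomial J KK))
    (u : J → ℝ) (y : ℝ) : ℝ :=
  m.eval₂ (MvPolynomial.aeval u : MvPolynomial J KK →ₐ[KK] ℝ).toRingHom y

/-- substitution of a polynomial `t` in all variables for the last variable -/
noncomputable def psub {d : ℕ} (J : Finset (Fin d)) (m : Polynomial (MvPolynomial J KK))
    (t : MvPolynomial (Fin d) KK) : MvPolynomial (Fin d) KK :=
  m.eval₂ (MvPolynomial.rename (fun j : J => (j : Fin d)) :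
    MvPolynomial J KK →ₐ[KK] MvPolynomial (Fin d) KK).toRingHom t

/-- algebraic description of a prime ideal: transcendence basis and primitive element -/
structure PrimData {d : ℕ} (P : Ideal (MvPolynomial (Fin d) KK)) (J : Finset (Fin d)) where
  t : MvPolynomial (Fin d) KK
  m : Polynomial (MvPolynomial J KK)
  r : Fin d → Polynomial (MvPolynomial J KK)
  δ : MvPolynomial J KK
  indep : ∀ s : MvPolynomial J KK, s ≠ 0 → MvPolynomial.rename (fun j : J => (j : Fin d)) s ∉ P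
  δ0 : δ ≠ 0
  hm : psub J m t ∈ P
  hm' : psub J (Polynomial.derivative m) t ∉ P
  hr : ∀ l, MvPolynomial.rename (fun j : J => (j : Fin d)) δ * MvPolynomial.X l -
    psub J (r l) t ∈ P
  div : ∀ q : Polynomial (MvPolynomial J KK), psub J q t ∈ P →
    ∃ (s : MvPolynomial J KK) (q' : Polynomial (MvPolynomial J KK)), s ≠ 0 ∧
      Polynomial.C s * q = m * q'
  bez : ∀ q : Polynomial (MvPolynomial J KK), psub J q t ∉ P →
    ∃ (s : MvPolynomial J KK) (α β : Polynomial (MvPolynomial J KK)), s ≠ 0 ∧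
      α * m + β * q = Polynomial.C s

def ST_Z2A : Prop := ∀ (d : ℕ) (P : Ideal (MvPolynomial (Fin d) KK)), P.IsPrime →
  ∃ J : Finset (Fin d), Nonempty (PrimData P J)

/-- local parametrization of the zero set of a prime ideal -/
structure LocPar {d : ℕ} (P : Ideal (MvPolynomial (Fin d) KK)) (J : Finset (Fin d))
    (w : Fin d → ℝ) (F : (Fin d → ℝ) → (Fin d → ℝ)) : Prop where
  smooth : ContDiffAt ℝ 3 F w
  fix : F w = w
  dep : ∀ x y : Fin d → ℝ, (∀ j ∈ J, x j = y j) → F x = F y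
  idJ : ∀ (x : Fin d → ℝ), ∀ j ∈ J, F x j = x j
  zero : ∀ᶠ x in 𝓝 w, (∀ g ∈ P, MvPolynomial.aeval x g = 0) ↔ F x = x
  dense : ∀ g : MvPolynomial (Fin d) KK, (∀ᶠ x in 𝓝 w, MvPolynomial.aeval (F x) g = 0) → g ∈ P
  alg : ∀ᶠ x in 𝓝 w, (∀ i, x i ∈ KK) → ∀ i, F x i ∈ KK

def ST_Z2B : Prop := ∀ (d : ℕ) (P : Ideal (MvPolynomial (Fin d) KK)), P.IsPrime →
  ∀ J : Finset (Fin d), Nonempty (PrimData P J) →
  ∃ h : MvPolynomial (Fin d) KK, h ∉ P ∧ ∀ w : Fin d → ℝ,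
    (∀ g ∈ P, MvPolynomial.aeval w g = 0) → MvPolynomial.aeval w h ≠ 0 →
    ∃ F, LocPar P J w F

/-- the functions of the parametrization are not affine -/
def ST_Z3 : Prop := ∀ (d : ℕ) (P : Ideal (MvPolynomial (Fin d) KK)) (J : Finset (Fin d))
  (w : Fin d → ℝ) (F : (Fin d → ℝ) → (Fin d → ℝ)), LocPar P J w F →
  (∀ f : KForm d, f.1 ≠ 0 → toP f ∉ P) → ∀ l, l ∉ J →
  ¬ ∃ (a : Fin d → ℝ) (b : ℝ), ∀ᶠ x in 𝓝 w, F x l = ∑ i, a i * x i + b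

/-- the three possible local shapes of a set whose frontier is contained in `{F x = x}` -/
def Shape {d : ℕ} (A : Set (Fin d → ℝ)) (w : Fin d → ℝ) (J : Finset (Fin d)) (l : Fin d)
    (F : (Fin d → ℝ) → (Fin d → ℝ)) : Prop :=
  (∀ᶠ x in 𝓝 w, (x ∈ A ↔ F x = x)) ∨ (∀ᶠ x in 𝓝 w, (x ∈ A ↔ F x ≠ x)) ∨
  ((∀ j, j ≠ l → j ∈ J) ∧
    ((∀ᶠ x in 𝓝 w, (x l < F x l → x ∈ A) ∧ (F x l < x l → x ∉ A)) ∨
     (∀ᶠ x in 𝓝 w, (x l < F x l → x ∉ A) ∧ (F x l < x l → x ∈ A))))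

def ST_Z4 : Prop := ∀ (d : ℕ) (A : Set (Fin d → ℝ)) (w : Fin d → ℝ) (J : Finset (Fin d))
  (l : Fin d) (F : (Fin d → ℝ) → (Fin d → ℝ)), l ∉ J →
  (∀ᶠ x in 𝓝 w, ContinuousAt F x) → F w = w →
  (∀ x y : Fin d → ℝ, (∀ j ∈ J, x j = y j) → F x = F y) →
  (∀ (x : Fin d → ℝ), ∀ j ∈ J, F x j = x j) →
  w ∈ frontier A → (∀ᶠ x in 𝓝 w, x ∈ frontier A → F x = x) →
  (∀ᶠ x in 𝓝 w, F x = x → (x ∈ A ↔ w ∈ A)) → Shape A w J l F

/-- good points -/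
def Loc {d : ℕ} (A : Set (Fin d → ℝ)) (w : Fin d → ℝ) : Prop :=
  ∃ (J : Finset (Fin d)) (l : Fin d) (F : (Fin d → ℝ) → (Fin d → ℝ)), l ∉ J ∧
    ContDiffAt ℝ 3 F w ∧ F w = w ∧
    (∀ x y : Fin d → ℝ, (∀ j ∈ J, x j = y j) → F x = F y) ∧
    (∀ (x : Fin d → ℝ), ∀ j ∈ J, F x j = x j) ∧
    (¬ ∃ (a : Fin d → ℝ) (b : ℝ), ∀ᶠ x in 𝓝 w, F x l = ∑ i, a i * x i + b) ∧
    Shape A w J l F

def ST_LOC : Prop := ∀ (d : ℕ) (A : Set (Fin d → ℝ)), SA A → ¬ Cov (frontier A) →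
  ∀ Z : List (KForm d), (∀ z ∈ Z, z.1 ≠ 0) → ∃ w, (∀ z ∈ Z, kev z w ≠ 0) ∧ Loc A w

/-- rational points and directions with nonvanishing second derivative -/
def ST_DIR : Prop := ∀ (d : ℕ) (G : (Fin d → ℝ) → ℝ) (w : Fin d → ℝ), ContDiffAt ℝ 3 G w →
  (¬ ∃ (a : Fin d → ℝ) (b : ℝ), ∀ᶠ x in 𝓝 w, G x = ∑ i, a i * x i + b) →
  ∀ U ∈ 𝓝 w, ∃ (y u : Fin d → ℚ), (fun i => (y i : ℝ)) ∈ U ∧
    ContDiffAt ℝ 3 (fun t : ℝ => G (fun i => (y i : ℝ) + t * u i)) 0 ∧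
    iteratedDeriv 2 (fun t : ℝ => G (fun i => (y i : ℝ) + t * u i)) 0 ≠ 0

/-- the box with rational vertices `a`, `b` -/
def Bx {k : ℕ} (a b : Fin k → ℚ) (p : Fin k → ℝ) : Prop := ∀ i, (a i : ℝ) ≤ p i ∧ p i ≤ b i

/-- `P` is the first of `m + 1` points of `T` in the box whose pairwise midpoints are not in `T` -/
def Tup {k : ℕ} (T : Set (Fin k → ℝ)) (m : ℕ) (a b : Fin k → ℚ) (P : Fin k → ℝ) : Prop :=
  ∃ p : Fin (m + 1) → Fin k → ℝ, p 0 = P ∧ (∀ i, p i ∈ T ∧ Bx a b (p i)) ∧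
    ∀ i j, i < j → (fun l => (p i l + p j l) / 2) ∉ T

/-- the points of such a family lie on the flat -/
def ST_TRICK : Prop := ∀ (k d : ℕ) (A T : Set (Fin k → ℝ)) (φ : NM d k) (H : List (KForm k))
  (m : ℕ) (a b : Fin k → ℚ), (T = A ∨ T = Aᶜ) → 3 ^ H.length ≤ m →
  (∀ h ∈ H, ∀ x, kev h (nev φ x) = 0) → (∀ p, (∀ h ∈ H, kev h p = 0) → p ∈ Set.range (nev φ)) →
  (∀ p q, Bx a b p → Bx a b q → p ∉ Set.range (nev φ) → q ∉ Set.range (nev φ) →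
    (∀ h ∈ H, SignType.sign (kev h p) = SignType.sign (kev h q)) → (p ∈ A ↔ q ∈ A)) →
  ∀ P, Tup T m a b P → P ∈ Set.range (nev φ)

/-- the relation `y = f x` given by a thin good point -/
def RThin {k : ℕ} (T : Set (Fin k → ℝ)) (m : ℕ) (a b : Fin k → ℚ) (C : Finset (Fin k))
    (l : Fin k) (y0 u : Fin k → ℚ) (ρ : ℝ) (x y : ℝ) : Prop :=
  |x| ≤ ρ ∧ ∃ P : Fin k → ℝ, Tup T m a b P ∧ (∀ j ∈ C, P j = y0 j + x * u j) ∧ P l = y

/-- the relation `|y - f x| ≤ ε` given by a good point of hypersurface type -/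
def RHyp {k : ℕ} (T : Set (Fin k → ℝ)) (m : ℕ) (a b : Fin k → ℚ) (C : Finset (Fin k))
    (l : Fin k) (y0 u : Fin k → ℚ) (ρ : ℝ) (s : ℤ) (x y ε : ℝ) : Prop :=
  |x| ≤ ρ ∧ ∃ P Q : Fin k → ℝ, Tup T m a b P ∧ Tup T m a b Q ∧
    (∀ j ∈ C, P j = y0 j + x * u j ∧ Q j = y0 j + x * u j) ∧ P l = y - s * ε ∧
    Q l = y - 3 * (s * ε) ∧ Bx a b (fun i => 2 * P i - Q i) ∧ (fun i => 2 * P i - Q i) ∉ T

/-- a set is a source of a curve -/
def Geo {k : ℕ} (A : Set (Fin k → ℝ)) : Prop :=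
  ∃ (T : Set (Fin k → ℝ)) (m : ℕ) (a b : Fin k → ℚ) (C : Finset (Fin k)) (l : Fin k)
    (y0 u : Fin k → ℚ) (ρ : ℚ) (ε₀ : ℝ) (f : ℝ → ℝ), (T = A ∨ T = Aᶜ) ∧ 0 < ρ ∧ 0 < ε₀ ∧
    ContDiffAt ℝ 3 f 0 ∧ iteratedDeriv 2 f 0 ≠ 0 ∧
    (((∀ x y, RThin T m a b C l y0 u ρ x y → y = f x) ∧
        ∀ x : ℝ, |x| ≤ ρ → RThin T m a b C l y0 u ρ x (f x)) ∨
      ∃ s : ℤ, (∀ x y ε, RHyp T m a b C l y0 u ρ s x y ε → |y - f x| ≤ ε) ∧
        ∀ x ε : ℝ, |x| ≤ ρ → 0 < ε → ε ≤ ε₀ → RHyp T m a b C l y0 u ρ s x (f x) ε)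

/-- thin good points -/
def ST_GEOT : Prop := ∀ (k d : ℕ) (A T : Set (Fin k → ℝ)) (φ : NM d k) (w : Fin d → ℝ)
  (J : Finset (Fin d)) (l : Fin d) (F : (Fin d → ℝ) → (Fin d → ℝ)) (H : List (KForm k)) (ε : ℝ),
  (T = A ∨ T = Aᶜ) → 0 < ε →
  (∀ h ∈ H, ∀ x, kev h (nev φ x) = 0) → (∀ p, (∀ h ∈ H, kev h p = 0) → p ∈ Set.range (nev φ)) →
  (∀ p ∈ Metric.ball (nev φ w) ε, ∀ q ∈ Metric.ball (nev φ w) ε,
    p ∉ Set.range (nev φ) → q ∉ Set.range (nev φ) →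
    (∀ h ∈ H, SignType.sign (kev h p) = SignType.sign (kev h q)) → (p ∈ A ↔ q ∈ A)) →
  l ∉ J → ContDiffAt ℝ 3 F w → F w = w →
  (∀ x y : Fin d → ℝ, (∀ j ∈ J, x j = y j) → F x = F y) →
  (∀ (x : Fin d → ℝ), ∀ j ∈ J, F x j = x j) →
  (¬ ∃ (a : Fin d → ℝ) (b : ℝ), ∀ᶠ x in 𝓝 w, F x l = ∑ i, a i * x i + b) →
  (∀ᶠ x in 𝓝 w, (nev φ x ∈ T ↔ F x = x)) → Geo A

/-- good points of hypersurface type -/
def ST_GEOH : Prop := ∀ (k d : ℕ) (A : Set (Fin k → ℝ)) (φ : NM d k) (w : Fin d → ℝ)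
  (J : Finset (Fin d)) (l : Fin d) (F : (Fin d → ℝ) → (Fin d → ℝ)) (H : List (KForm k)) (ε : ℝ),
  0 < ε →
  (∀ h ∈ H, ∀ x, kev h (nev φ x) = 0) → (∀ p, (∀ h ∈ H, kev h p = 0) → p ∈ Set.range (nev φ)) →
  (∀ p ∈ Metric.ball (nev φ w) ε, ∀ q ∈ Metric.ball (nev φ w) ε,
    p ∉ Set.range (nev φ) → q ∉ Set.range (nev φ) →
    (∀ h ∈ H, SignType.sign (kev h p) = SignType.sign (kev h q)) → (p ∈ A ↔ q ∈ A)) →
  l ∉ J → ContDiffAt ℝ 3 F w → F w = w →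
  (∀ x y : Fin d → ℝ, (∀ j ∈ J, x j = y j) → F x = F y) →
  (∀ (x : Fin d → ℝ), ∀ j ∈ J, F x j = x j) →
  (¬ ∃ (a : Fin d → ℝ) (b : ℝ), ∀ᶠ x in 𝓝 w, F x l = ∑ i, a i * x i + b) →
  (∀ j, j ≠ l → j ∈ J) →
  ((∀ᶠ x in 𝓝 w, (x l < F x l → nev φ x ∈ A) ∧ (F x l < x l → nev φ x ∉ A)) ∨
     (∀ᶠ x in 𝓝 w, (x l < F x l → nev φ x ∉ A) ∧ (F x l < x l → nev φ x ∈ A))) → Geo A

def ST_SAPRE : Prop := ∀ (k d : ℕ) (A : Set (Fin k → ℝ)) (φ : NM d k), SA A → SA (nev φ ⁻¹' A)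

/-- the geometric part -/
def ST_GEO : Prop := ∀ (k : ℕ) (A : Set (Fin k → ℝ)), SA A → ¬ SLin A → Geo A

end Pool.Agent.Helper54.DI
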