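import Pool.Agent.Helper54.DI.StmtsA
import Pool.Agent.Helper54.DI.Defs
import Pool.Agent.Helper54.Rg.Main

/-! Statements of the arithmetical and computational part of the dichotomy theorem. -/

namespace Pool.Agent.Helper54.DI

open Finset Filter Topology Pool.Agent.Helper54.ETR Pool.Agent.Helper54.Poly

/-- relations definable by conjunctions of constraints with auxiliary variables -/
def PP (Γ : List Form) {ι : Type} (P : (ι → ℝ) → Prop) : Prop :=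
  ∃ (e : ι → ℕ) (χ : Form), Function.Injective e ∧ Cons Γ χ ∧
    ∀ v : ι → ℝ, P v ↔ ∃ w : ℕ → ℝ, (∀ i, w (e i) = v i) ∧ χ.Holds w

/-- extension of a point by zero -/
def ext0 {k : ℕ} (x : Fin k → ℝ) : ℕ → ℝ := fun i => if h : i < k then x ⟨i, h⟩ else 0

/-! closure properties -/

def ST_PPAND : Prop := ∀ (Γ : List Form) (ι : Type) [Fintype ι] (P Q : (ι → ℝ) → Prop),
  PP Γ P → PP Γ Q → PP Γ (fun v => P v ∧ Q v)

def ST_PPRE : Prop := ∀ (Γ : List Form) (ι κ : Type) [Fintype ι] [Fintype κ] (P : (κ → ℝ) → Prop)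
  (g : κ → ι), PP Γ P → PP Γ (fun v : ι → ℝ => P (fun a => v (g a)))

def ST_PPEX : Prop := ∀ (Γ : List Form) (ι κ : Type) [Fintype ι] [Fintype κ]
  (P : (ι ⊕ κ → ℝ) → Prop), PP Γ P → PP Γ (fun v : ι → ℝ => ∃ u : κ → ℝ, P (Sum.elim v u))

def ST_PPTRUE : Prop := ∀ (Γ : List Form) (ι : Type) [Fintype ι], PP Γ (fun _ : ι → ℝ => True)

def ST_PPALL : Prop := ∀ (Γ : List Form) (ι : Type) [Fintype ι] (m : ℕ)
  (P : Fin m → (ι → ℝ) → Prop), (∀ i, PP Γ (P i)) → PP Γ (fun v => ∀ i, P i v)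

/-- rational linear inequalities -/
def ST_PPLE : Prop := ∀ (Γ : List Form) (ι : Type) [Fintype ι] (c : ι → ℚ) (b : ℚ),
  PP Γ (fun v : ι → ℝ => ∑ i, (c i : ℝ) * v i ≤ b)

/-- rational affine substitutions -/
def ST_PPAFF : Prop := ∀ (Γ : List Form) (ι κ : Type) [Fintype ι] [Fintype κ]
  (P : (κ → ℝ) → Prop) (L : κ → ι → ℚ) (b : κ → ℚ), PP Γ P →
  PP Γ (fun v : ι → ℝ => P (fun a => ∑ i, (L a i : ℝ) * v i + b a))

def ST_PPREL : Prop := ∀ (Γ : List Form) (ρ : Form) (k : ℕ), ρ ∈ Γ → FBelow k ρ →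
  PP Γ (fun v : Fin k → ℝ => ρ.Holds (ext0 v)) ∧ PP Γ (fun v : Fin k → ℝ => ¬ ρ.Holds (ext0 v))

/-- extraction of a formula -/
def ST_PPOUT : Prop := ∀ (Γ : List Form) (n : ℕ) (P : (Fin n → ℝ) → Prop), PP Γ P →
  ∃ (χ : Form) (N : ℕ), Cons Γ χ ∧ FBelow N χ ∧ n ≤ N ∧
    ∀ v : Fin n → ℝ, P v ↔ ∃ w : ℕ → ℝ, (∀ i : Fin n, w i = v i) ∧ χ.Holds w

/-- a curve gadget: approximate access to a function with positive second derivative at `0` -/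
def Gad (Γ : List Form) : Prop :=
  ∃ (f : ℝ → ℝ) (ρ ε₀ : ℝ) (R : (Fin 3 → ℝ) → Prop), PP Γ R ∧ 0 < ρ ∧ 0 < ε₀ ∧
    ContDiffAt ℝ 3 f 0 ∧ 0 < iteratedDeriv 2 f 0 ∧
    (∀ v, R v → |v 0| ≤ ρ ∧ |v 1 - f (v 0)| ≤ v 2) ∧
    ∀ x ε : ℝ, |x| ≤ ρ → 0 < ε → ε ≤ ε₀ → R ![x, f x, ε]

/-- the relation `Tup` is definable -/
def ST_PPTUP : Prop := ∀ (Γ : List Form) (k : ℕ) (T : Set (Fin k → ℝ)) (m : ℕ)
  (a b : Fin k → ℚ), PP Γ (fun v : Fin k → ℝ => v ∈ T) → PP Γ (fun v : Fin k → ℝ => v ∉ T) →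
  PP Γ (fun v : Fin k → ℝ => Tup T m a b v)

def ST_GAD : Prop := ∀ (Γ : List Form) (ρ : Form) (k : ℕ), ρ ∈ Γ → FBelow k ρ →
  Geo {x : Fin k → ℝ | ρ.Holds (ext0 x)} → Gad Γ

/-- second differences -/
def ST_Q2 : Prop := ∀ f : ℝ → ℝ, ContDiffAt ℝ 3 f 0 → ∃ r > 0, ∃ Λ ≥ 0, ∀ a b : ℝ,
  |a| ≤ r → |b| ≤ r →
  |f (a + b) - f a - f b + f 0 - iteratedDeriv 2 f 0 * (a * b)| ≤ Λ * (|a| + |b|) * |a * b|

/-- approximate products -/
structure Tpl (Γ : List Form) (r C : ℝ) (AP : ℝ → ℝ → ℝ → Prop)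
    (GM : ℝ → ℝ → ℝ → ℝ → ℝ → Prop) : Prop where
  r0 : 0 < r
  r1 : r ≤ 1
  C1 : 1 ≤ C
  pp0 : PP Γ (fun v : Fin 1 → ℝ => v 0 = r / 16)
  ppA : PP Γ (fun v : Fin 3 → ℝ => AP (v 0) (v 1) (v 2))
  ppG : PP Γ (fun v : Fin 5 → ℝ => GM (v 0) (v 1) (v 2) (v 3) (v 4))
  aps : ∀ a b c, AP a b c → 0 ≤ a ∧ a ≤ r ∧ 0 ≤ b ∧ b ≤ r ∧ 0 ≤ c ∧ c ≤ r ∧
    a * b ≤ 3 * (r * c) ∧ r * c ≤ 3 * (a * b)
  apc : ∀ a b, 0 < a → a ≤ r → 0 < b → b ≤ r → AP a b (a * b / r)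
  gms : ∀ a b c δ ω, GM a b c δ ω → 0 ≤ ω → ∀ m, m ≤ r → |a| ≤ m → |b| ≤ m → |c| ≤ m → |δ| ≤ m →
    |a * b - c * δ| ≤ C * (m * (|a * b| + |c * δ|) + ω)
  gmc : ∀ a b c δ ω m, m ≤ r → |a| ≤ m → |b| ≤ m → |c| ≤ m → |δ| ≤ m → 0 < ω → ω ≤ r →
    a * b = c * δ → C * (m * |a * b|) ≤ ω → GM a b c δ ω

def ST_TPL : Prop := ∀ Γ, Gad Γ → ∃ (r C : ℝ) (AP : ℝ → ℝ → ℝ → Prop)
  (GM : ℝ → ℝ → ℝ → ℝ → ℝ → Prop), Tpl Γ r C AP GM

/-- size parameter of a system of `n` equations -/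
def QB (n : ℕ) : ℕ := Qb (24 * n + 4) n

/-- bounded solutions and gaps for systems of basic equations -/
def ST_BG : Prop := ∀ (E : List Term), (∀ e ∈ E, Basic e) → (∀ e ∈ E, e.Below E.length) →
  ((∃ x : ℕ → ℝ, ∀ e ∈ E, e.eval x = 0) →
    ∃ x : ℕ → ℝ, (∀ e ∈ E, e.eval x = 0) ∧ ∀ i < E.length, |x i| ≤ 2 ^ 2 ^ QB E.length) ∧
  ((¬ ∃ x : ℕ → ℝ, ∀ e ∈ E, e.eval x = 0) →
    ∀ (a : ℕ) (x : ℕ → ℝ), (∀ i < E.length, |x i| ≤ 2 ^ 2 ^ a) →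
      1 ≤ (E.map fun e => (e.eval x) ^ 2).sum * 2 ^ 2 ^ (a + E.length + QB E.length))

def j1 (n : ℕ) : ℕ := QB n
def j3 (c n : ℕ) : ℕ := 2 * QB n + 2 * n + 3 + c
def j2 (c n : ℕ) : ℕ := 3 * QB n + 2 * n + 3 + 2 * c

/-- the real numbers coding an approximate solution -/
structure Core (r : ℝ) (AP : ℝ → ℝ → ℝ → Prop) (GM : ℝ → ℝ → ℝ → ℝ → ℝ → Prop) (E : List Term)
    (c n : ℕ) (s : ℕ → ℝ) (m ω : ℝ) (a : ℕ → ℝ) : Prop where
  s0 : s 0 = r / 16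
  ch : ∀ j < j2 c n + 1, AP (s j) (s j) (s (j + 1))
  hm : AP m (s (j1 n)) (s (j2 c n))
  hω : AP (s (j2 c n + 1)) (s (j3 c n)) ω
  bd : ∀ i < n, -m ≤ a i ∧ a i ≤ m
  one : ∀ i, gOne i ∈ E → a i = s (j2 c n)
  add : ∀ i j k, gAdd i j k ∈ E → a i + a j = a k
  mul : ∀ i j k, gMul i j k ∈ E → GM (a i) (a j) (a k) (s (j2 c n)) ω

/-- bounds for the chain -/
def ST_CHB : Prop := ∀ (r : ℝ) (AP : ℝ → ℝ → ℝ → Prop) (s : ℕ → ℝ) (J : ℕ), 0 < r →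
  (∀ a b c, AP a b c → 0 ≤ a ∧ a ≤ r ∧ 0 ≤ b ∧ b ≤ r ∧ 0 ≤ c ∧ c ≤ r ∧
    a * b ≤ 3 * (r * c) ∧ r * c ≤ 3 * (a * b)) → s 0 = r / 16 →
  (∀ j < J, AP (s j) (s j) (s (j + 1))) →
  ∀ j ≤ J, s j * 2 ^ (2 * 2 ^ j) ≤ r / 3 * 1 ∧ 3 * r ≤ s j * 2 ^ (6 * 2 ^ j)

def ST_SND : Prop := ∀ (Γ : List Form) (r C : ℝ) (AP : ℝ → ℝ → ℝ → Prop)
  (GM : ℝ → ℝ → ℝ → ℝ → ℝ → Prop), Tpl Γ r C AP GM → ∀ c0 : ℕ, C ≤ 2 ^ c0 → 1 ≤ r * 2 ^ c0 →
  ∀ c, 2 * c0 + 10 ≤ c → ∀ E : List Term, (∀ e ∈ E, Basic e) → (∀ e ∈ E, e.Below E.length) →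
  (∃ s m ω a, Core r AP GM E c E.length s m ω a) → ∃ x : ℕ → ℝ, ∀ e ∈ E, e.eval x = 0

def ST_CPL : Prop := ∀ (Γ : List Form) (r C : ℝ) (AP : ℝ → ℝ → ℝ → Prop)
  (GM : ℝ → ℝ → ℝ → ℝ → ℝ → Prop), Tpl Γ r C AP GM → ∀ c0 : ℕ, C ≤ 2 ^ c0 → 1 ≤ r * 2 ^ c0 →
  ∀ c, 2 * c0 + 10 ≤ c → ∀ E : List Term, (∀ e ∈ E, Basic e) → (∀ e ∈ E, e.Below E.length) →
  (∃ x : ℕ → ℝ, ∀ e ∈ E, e.eval x = 0) → ∃ s m ω a, Core r AP GM E c E.length s m ω a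

/-- the default formula -/
def dF : Form := Form.le (Term.var 0) (Term.var 0)

/-- instances: a list of items (number of the template, arguments) -/
def inst (L : List Form) (B N : ℕ) : ℕ → List (ℕ × List ℕ) → Form
  | _, [] => dF
  | t, it :: l => Form.and ((L.getD it.1 dF).ren
      (fun j => if j < it.2.length then it.2.getD j 0 else B + N * t + j)) (inst L B N (t + 1) l)

def ST_INST : Prop := ∀ (L : List Form) (B N : ℕ), (∀ ψ ∈ L, FBelow N ψ) → 1 ≤ N →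
  ∀ (l : List (ℕ × List ℕ)) (t : ℕ), (∀ it ∈ l, it.1 < L.length ∧ ∀ a ∈ it.2, a < B) →
  ((∃ x : ℕ → ℝ, (inst L B N t l).Holds x) ↔ ∃ v : ℕ → ℝ, ∀ it ∈ l, ∃ w : ℕ → ℝ,
    (∀ j < it.2.length, w j = v (it.2.getD j 0)) ∧ (L.getD it.1 dF).Holds w)

def ST_INSC : Prop := ∀ (Γ L : List Form) (B N : ℕ), (∀ ψ ∈ L, Cons Γ ψ) →
  ∀ (l : List (ℕ × List ℕ)) (t : ℕ), Cons Γ (inst L B N t l)

/-- indices of the variables of a list of symbols -/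
def vnum (l : List Tok) : List ℕ := l.foldr (fun t st => match t with
  | Tok.e => 0 :: st
  | Tok.s => (match st with
    | [] => []
    | i :: st' => (i + 1) :: st')
  | _ => st) []

/-- variables of a term in order of occurrence -/
def tvars : Term → List ℕ
  | Term.zero => []
  | Term.one => []
  | Term.var i => [i]
  | Term.add s t => tvars s ++ tvars t
  | Term.sub s t => tvars s ++ tvars t
  | Term.mul s t => tvars s ++ tvars t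

def fvars : Form → List ℕ
  | Form.lt s t => tvars s ++ tvars t
  | Form.le s t => tvars s ++ tvars t
  | Form.eq s t => tvars s ++ tvars t
  | Form.ge s t => tvars s ++ tvars t
  | Form.gt s t => tvars s ++ tvars t
  | Form.and p q => fvars p ++ fvars q
  | Form.or p q => fvars p ++ fvars q
  | Form.not p => fvars p

def ST_VNUM : Prop := (∀ t : Term, vnum t.toks = tvars t) ∧ ∀ p : Form, vnum p.toks = fvars p

/-- item of a gate, from its symbols -/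
def gitem (c n : ℕ) (l : List Tok) : ℕ × List ℕ :=
  match l.getD 1 Tok.zero with
  | Tok.mul => (5, (vnum l).map (fun i => j2 c n + 4 + i) ++ [j2 c n, j2 c n + 3])
  | Tok.add => (3, (vnum l).map (fun i => j2 c n + 4 + i))
  | _ => (2, (vnum l).map (fun i => j2 c n + 4 + i) ++ [j2 c n])

/-- items of the instance; `g` is the list of the symbol lists of the gates -/
def items (c : ℕ) (g : List (List Tok)) : List (ℕ × List ℕ) :=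
  (0, [0]) :: ((List.range (j2 c g.length + 1)).map (fun j => (1, [j, j, j + 1])) ++
    ((1, [j2 c g.length + 2, j1 g.length, j2 c g.length]) ::
     (1, [j2 c g.length + 1, j3 c g.length, j2 c g.length + 3]) ::
     ((List.range g.length).map (fun i => (4, [j2 c g.length + 4 + i, j2 c g.length + 2])) ++
      g.map (gitem c g.length))))

/-- the instance is solvable iff the real numbers exist -/
def ST_ITM : Prop := ∀ (Γ : List Form) (r : ℝ) (AP : ℝ → ℝ → ℝ → Prop)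
  (GM : ℝ → ℝ → ℝ → ℝ → ℝ → Prop) (L : List Form) (N : ℕ), L.length = 6 → (∀ ψ ∈ L, FBelow N ψ) →
  1 ≤ N →
  (∀ s : ℝ, s = r / 16 ↔ ∃ w : ℕ → ℝ, w 0 = s ∧ (L.getD 0 dF).Holds w) →
  (∀ a b c : ℝ, AP a b c ↔ ∃ w : ℕ → ℝ, w 0 = a ∧ w 1 = b ∧ w 2 = c ∧ (L.getD 1 dF).Holds w) →
  (∀ a b : ℝ, a = b ↔ ∃ w : ℕ → ℝ, w 0 = a ∧ w 1 = b ∧ (L.getD 2 dF).Holds w) →
  (∀ a b c : ℝ, a + b = c ↔ ∃ w : ℕ → ℝ, w 0 = a ∧ w 1 = b ∧ w 2 = c ∧
    (L.getD 3 dF).Holds w) →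
  (∀ a m : ℝ, (-m ≤ a ∧ a ≤ m) ↔ ∃ w : ℕ → ℝ, w 0 = a ∧ w 1 = m ∧ (L.getD 4 dF).Holds w) →
  (∀ a b c δ ω : ℝ, GM a b c δ ω ↔ ∃ w : ℕ → ℝ, w 0 = a ∧ w 1 = b ∧ w 2 = c ∧ w 3 = δ ∧ w 4 = ω ∧
    (L.getD 5 dF).Holds w) →
  ∀ (c : ℕ) (E : List Term), (∀ e ∈ E, Basic e) → (∀ e ∈ E, e.Below E.length) →
  ((∃ x : ℕ → ℝ, (inst L (j2 c E.length + 4 + E.length) N 0 (items c (E.map Term.toks))).Holds x)
    ↔ ∃ s m ω a, Core r AP GM E c E.length s m ω a)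

/-- the templates exist -/
def ST_TPF : Prop := ∀ (Γ : List Form) (r C : ℝ) (AP : ℝ → ℝ → ℝ → Prop)
  (GM : ℝ → ℝ → ℝ → ℝ → ℝ → Prop), Tpl Γ r C AP GM → ∃ (L : List Form) (N : ℕ), L.length = 6 ∧
  (∀ ψ ∈ L, FBelow N ψ ∧ Cons Γ ψ) ∧ 1 ≤ N ∧
  (∀ s : ℝ, s = r / 16 ↔ ∃ w : ℕ → ℝ, w 0 = s ∧ (L.getD 0 dF).Holds w) ∧
  (∀ a b c : ℝ, AP a b c ↔ ∃ w : ℕ → ℝ, w 0 = a ∧ w 1 = b ∧ w 2 = c ∧ (L.getD 1 dF).Holds w) ∧
  (∀ a b : ℝ, a = b ↔ ∃ w : ℕ → ℝ, w 0 = a ∧ w 1 = b ∧ (L.getD 2 dF).Holds w) ∧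
  (∀ a b c : ℝ, a + b = c ↔ ∃ w : ℕ → ℝ, w 0 = a ∧ w 1 = b ∧ w 2 = c ∧
    (L.getD 3 dF).Holds w) ∧
  (∀ a m : ℝ, (-m ≤ a ∧ a ≤ m) ↔ ∃ w : ℕ → ℝ, w 0 = a ∧ w 1 = m ∧ (L.getD 4 dF).Holds w) ∧
  (∀ a b c δ ω : ℝ, GM a b c δ ω ↔ ∃ w : ℕ → ℝ, w 0 = a ∧ w 1 = b ∧ w 2 = c ∧ w 3 = δ ∧ w 4 = ω ∧
    (L.getD 5 dF).Holds w)

/-- symbols of renamed formulas -/
def ST_PTREN : Prop := ∀ (χ : Form) (α : Type) [TEnc α] (g : α → ℕ → ℕ),
  (∀ i, PT (fun a => g a i)) → PT (fun a => (χ.ren (g a)).toks)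

def ST_PTINST : Prop := ∀ (L : List Form) (N : ℕ) (α : Type) [TEnc α] (B : α → ℕ)
  (l : α → List (ℕ × List ℕ)), PT B → PT l → PT (fun a => (inst L (B a) N 0 (l a)).toks)

def ST_PTITM : Prop := ∀ (c : ℕ) (α : Type) [TEnc α] (g : α → List (List Tok)), PT g →
  PT (fun a => items c (g a)) ∧ PT (fun a => j2 c (g a).length + 4 + (g a).length)

/-- the gates of the regular system of a string -/
def ST_EK : Prop := ∃ EK : List Bool → List (List Tok), PT EK ∧ ∀ u, ∃ E : List Term,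
  EK u = E.map Term.toks ∧ (∀ e ∈ E, Basic e) ∧ (∀ e ∈ E, e.Below E.length) ∧
  ((∃ φ : Form, u = φ.code ∧ ∃ x : ℕ → ℝ, φ.Holds x) ↔ ∃ x : ℕ → ℝ, ∀ e ∈ E, e.eval x = 0)

def ST_HARD : Prop := ∀ Γ : List Form, Gad Γ → ∃ f : List Bool → List Bool,
  Nonempty (Turing.TM2ComputableInPolyTime (fun l : List Bool => l) (fun l => l) f) ∧
  ∀ u, ∃ φ : Form, f u = φ.code ∧ Cons Γ φ ∧
    ((∃ ψ : Form, u = ψ.code ∧ ∃ x : ℕ → ℝ, ψ.Holds x) ↔ ∃ x : ℕ → ℝ, φ.Holds x)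

/-! from formulas to sets -/

def ST_SAF : Prop := ∀ (ρ : Form) (k : ℕ), FBelow k ρ → SA {x : Fin k → ℝ | ρ.Holds (ext0 x)}

def ST_SLF : Prop := ∀ (ρ : Form) (k : ℕ), FBelow k ρ →
  SLin {x : Fin k → ℝ | ρ.Holds (ext0 x)} → SemiLin ρ

/-! the class NP -/

/-- list of symbols without the symbol `s` -/
def skel (l : List Tok) : List Tok := l.filter (fun t => match t with
  | Tok.s => false
  | _ => true)

/-- substitution read off from two lists of indices -/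
def lk (a b : List ℕ) (i : ℕ) : ℕ := b.getD (a.idxOf i) 0

instance : DecidableEq Tok := fun a b => by
  cases a <;> cases b <;> first | exact isTrue rfl | exact isFalse (by intro h; cases h)

/-- the list of symbols is an instance of `ρ` -/
def matchb (ρ : Form) (l : List Tok) : Bool :=
  decide (skel l = skel ρ.toks) &&
    decide (vnum l = (fvars ρ).map (lk (fvars ρ) (vnum l)))

def ST_MATCH : Prop := ∀ ρ φ : Form, (matchb ρ φ.toks = true ↔ ∃ f, φ = ρ.ren f) ∧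
  (matchb ρ φ.toks = true → φ = ρ.ren (lk (fvars ρ) (fvars φ)))

/-- the term has no multiplication -/
def tlin : Term → Bool
  | Term.zero => true
  | Term.one => true
  | Term.var _ => true
  | Term.add s t => tlin s && tlin t
  | Term.sub s t => tlin s && tlin t
  | Term.mul _ _ => false

/-- the formula is over `Γ` -/
def okF (Γ : List Form) : Form → Bool
  | Form.lt s t => Γ.any (fun ρ => matchb ρ (Form.lt s t).toks) || (tlin s && tlin t)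
  | Form.le s t => Γ.any (fun ρ => matchb ρ (Form.le s t).toks) || (tlin s && tlin t)
  | Form.eq s t => Γ.any (fun ρ => matchb ρ (Form.eq s t).toks) || (tlin s && tlin t)
  | Form.ge s t => Γ.any (fun ρ => matchb ρ (Form.ge s t).toks) || (tlin s && tlin t)
  | Form.gt s t => Γ.any (fun ρ => matchb ρ (Form.gt s t).toks) || (tlin s && tlin t)
  | Form.and p q => Γ.any (fun ρ => matchb ρ (Form.and p q).toks) || (okF Γ p && okF Γ q)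
  | Form.or p q => Γ.any (fun ρ => matchb ρ (Form.or p q).toks) || (okF Γ p && okF Γ q)
  | Form.not p => Γ.any (fun ρ => matchb ρ (Form.not p).toks) || okF Γ p

def ST_OKF : Prop := ∀ (Γ : List Form) (φ : Form), okF Γ φ = true ↔ Over Γ φ

/-- translation of an instance: `D` is a list of pairs (relation, translation), the first `s`
variables are reserved -/
def trI (s : ℕ) (φ : Form) : List (Form × Form) → Option Form
  | [] => none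
  | (ρ, τ) :: l => if matchb ρ φ.toks = true then
      some (τ.ren (fun i => if i < s then i else s + lk (fvars ρ) (fvars φ) (i - s)))
    else trI s φ l

/-- translation of a formula -/
def trF (s : ℕ) (D : List (Form × Form)) : Form → Form
  | Form.lt a b => (trI s (Form.lt a b) D).getD ((Form.lt a b).ren (fun i => s + i))
  | Form.le a b => (trI s (Form.le a b) D).getD ((Form.le a b).ren (fun i => s + i))
  | Form.eq a b => (trI s (Form.eq a b) D).getD ((Form.eq a b).ren (fun i => s + i))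
  | Form.ge a b => (trI s (Form.ge a b) D).getD ((Form.ge a b).ren (fun i => s + i))
  | Form.gt a b => (trI s (Form.gt a b) D).getD ((Form.gt a b).ren (fun i => s + i))
  | Form.and p q => (trI s (Form.and p q) D).getD (Form.and (trF s D p) (trF s D q))
  | Form.or p q => (trI s (Form.or p q) D).getD (Form.or (trF s D p) (trF s D q))
  | Form.not p => (trI s (Form.not p) D).getD (Form.not (trF s D p))

/-- translations of semilinear relations -/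
def ST_TAU : Prop := ∀ Γ : List Form, (∀ ρ ∈ Γ, SemiLin ρ) → ∃ (s : ℕ) (α : ℕ → ℝ) (δ : Form)
  (D : List (Form × Form)), FBelow s δ ∧ (∀ x : ℕ → ℝ, δ.Holds x ↔ ∀ i < s, x i = α i) ∧
  D.map Prod.fst = Γ ∧ ∀ z ∈ D, (∀ a ∈ z.2.atoms, atomDeg (Finset.range s) a ≤ 1) ∧
    ∀ x : ℕ → ℝ, (∀ i < s, x i = α i) → (z.2.Holds x ↔ z.1.Holds (fun i => x (s + i)))

/-- the translation is correct -/
def ST_TRS : Prop := ∀ (Γ : List Form) (s : ℕ) (α : ℕ → ℝ) (δ : Form) (D : List (Form × Form)),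
  FBelow s δ → (∀ x : ℕ → ℝ, δ.Holds x ↔ ∀ i < s, x i = α i) → D.map Prod.fst = Γ →
  (∀ z ∈ D, (∀ a ∈ z.2.atoms, atomDeg (Finset.range s) a ≤ 1) ∧
    ∀ x : ℕ → ℝ, (∀ i < s, x i = α i) → (z.2.Holds x ↔ z.1.Holds (fun i => x (s + i)))) →
  ∀ φ, okF Γ φ = true → (Form.and δ (trF s D φ)).Frag s 0 ∧
    ((∃ x : ℕ → ℝ, (Form.and δ (trF s D φ)).Holds x) ↔ ∃ x : ℕ → ℝ, φ.Holds x)

/-- the translation is computable in polynomial time -/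
def ST_TRP : Prop := ∀ (Γ : List Form) (s : ℕ) (D : List (Form × Form)),
  ∃ (V : List Bool → Bool) (W : List Bool → List Tok), PT V ∧ PT W ∧
    (∀ u, V u = true ↔ ∃ φ : Form, u = φ.code ∧ okF Γ φ = true) ∧
    ∀ φ : Form, okF Γ φ = true → W φ.code = (trF s D φ).toks

def ST_NP : Prop := ∀ Γ : List Form, (∀ ρ ∈ Γ, SemiLin ρ) →
  InNP {u | ∃ φ : Form, u = φ.code ∧ Over Γ φ ∧ ∃ x : ℕ → ℝ, φ.Holds x}

/-- the fragment is contained in the existential theory of the reals -/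
def ST_BACK : Prop := ∀ Γ : List Form, ∃ g : List Bool → List Bool,
  Nonempty (Turing.TM2ComputableInPolyTime (fun l : List Bool => l) (fun l => l) g) ∧
  ∀ u, (∃ φ : Form, u = φ.code ∧ Over Γ φ ∧ ∃ x : ℕ → ℝ, φ.Holds x) ↔
    ∃ φ : Form, g u = φ.code ∧ ∃ x : ℕ → ℝ, φ.Holds x

end Pool.Agent.Helper54.DI
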