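import Pool.Agent.Helper54.DI.StmtsA

/-! Statements of the geometric part for real algebraic sets. -/

namespace Pool.Agent.Helper54.DI

open Finset Filter Topology

/-- real algebraic sets -/
def AC {d : ℕ} (A : Set (Fin d → ℝ)) : Prop :=
  ∃ I : Ideal (MvPolynomial (Fin d) KK), ∀ x : Fin d → ℝ, x ∈ A ↔
    ∀ g ∈ I, MvPolynomial.aeval x g = 0

/-- the prime ideal of a component which is not a flat -/
def ST_P1 : Prop := ∀ (d : ℕ) (A : Set (Fin d → ℝ)), AC A → ¬ SLin A →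
  ∃ (P : Ideal (MvPolynomial (Fin d) KK)) (c : MvPolynomial (Fin d) KK),
    P.IsPrime ∧ c ∉ P ∧
    (∀ g ∈ P, ∀ x ∈ A, MvPolynomial.aeval x c ≠ 0 → MvPolynomial.aeval x g = 0) ∧
    (∀ h, h ∉ P → ∃ x ∈ A, MvPolynomial.aeval x c ≠ 0 ∧ MvPolynomial.aeval x h ≠ 0) ∧
    (∀ x : Fin d → ℝ, (∀ g ∈ P, MvPolynomial.aeval x g = 0) → x ∈ A) ∧
    ¬ P ≤ Ideal.span {g | g ∈ P ∧ ∃ f : KForm d, g = toP f}

/-- one of the functions of the parametrization is not affine -/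
def ST_P3 : Prop := ∀ (d : ℕ) (P : Ideal (MvPolynomial (Fin d) KK)) (J : Finset (Fin d))
  (w : Fin d → ℝ) (F : (Fin d → ℝ) → (Fin d → ℝ)), LocPar P J w F →
  (¬ P ≤ Ideal.span {g | g ∈ P ∧ ∃ f : KForm d, g = toP f}) → ∃ l, l ∉ J ∧
  ¬ ∃ (a : Fin d → ℝ) (b : ℝ), ∀ᶠ x in 𝓝 w, F x l = ∑ i, a i * x i + b

/-- a good point of a real algebraic set -/
def ST_LOCP : Prop := ∀ (d : ℕ) (A : Set (Fin d → ℝ)), AC A → ¬ SLin A →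
  ∃ (w : Fin d → ℝ) (J : Finset (Fin d)) (l : Fin d) (F : (Fin d → ℝ) → (Fin d → ℝ)), l ∉ J ∧
    ContDiffAt ℝ 3 F w ∧ F w = w ∧
    (∀ x y : Fin d → ℝ, (∀ j ∈ J, x j = y j) → F x = F y) ∧
    (∀ (x : Fin d → ℝ), ∀ j ∈ J, F x j = x j) ∧
    (¬ ∃ (a : Fin d → ℝ) (b : ℝ), ∀ᶠ x in 𝓝 w, F x l = ∑ i, a i * x i + b) ∧
    ∀ᶠ x in 𝓝 w, (x ∈ A ↔ F x = x)

/-- a set is a source of a curve, without use of its complement -/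
def GeoP {k : ℕ} (A : Set (Fin k → ℝ)) : Prop :=
  ∃ (a b : Fin k → ℚ) (C : Finset (Fin k)) (l : Fin k) (y0 u : Fin k → ℚ) (ρ : ℚ)
    (f : ℝ → ℝ), 0 < ρ ∧ ContDiffAt ℝ 3 f 0 ∧ iteratedDeriv 2 f 0 ≠ 0 ∧
    ∀ x y : ℝ, |x| ≤ ρ → ((∃ P ∈ A, Bx a b P ∧ (∀ j ∈ C, P j = y0 j + x * u j) ∧ P l = y) ↔
      y = f x)

def ST_GEOP : Prop := ∀ (k : ℕ) (A : Set (Fin k → ℝ)), AC A → ¬ SLin A → GeoP A

end Pool.Agent.Helper54.DI
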