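import Pool.Agent.Helper54.DI.StmtsB

namespace Pool.Agent.Helper54.DI

open Pool.Agent.Helper54.ETR Pool.Agent.Helper54.Poly

section tools

variable {α β : Type} [TEnc α] [TEnc β]

theorem PTlistEq {β : Type} [TEnc β] [DecidableEq β] (d : β)
    (hβ : PT (fun z : β × β => decide (z.1 = z.2))) {l m : α → List β} (hl : PT l) (hm : PT m) :
    PT (fun a => decide (l a = m a)) := by
  have h1 : PT (fun a => decide ((l a).length = (m a).length)) := PT.eqN (PT.length hl)
    (PT.length hm)
  have h2 : PT (fun a => (List.range (l a).length).all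
      (fun i => decide ((l a).getD i d = (m a).getD i d))) := by
    refine PT.all (f := fun z : α × ℕ => decide ((l z.1).getD z.2 d = (m z.1).getD z.2 d)) ?_
      (PT.range (PT.length hl))
    exact hβ.comp ((PT.getD PT.id.snd (hl.comp PT.id.fst) (PT.const d)).pair
      (PT.getD PT.id.snd (hm.comp PT.id.fst) (PT.const d)))
  refine (PT.and h1 h2).congr fun a => ?_
  rw [Bool.eq_iff_iff, Bool.and_eq_true, decide_eq_true_eq, List.all_eq_true, decide_eq_true_eq]
  constructor
  · rintro ⟨e1, e2⟩
    apply List.ext_getElem e1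
    intro i h h'
    have := e2 i (List.mem_range.2 h)
    rw [decide_eq_true_eq, List.getD_eq_getElem _ _ h, List.getD_eq_getElem _ _ h'] at this
    exact this
  · intro e
    rw [e]
    exact ⟨rfl, fun i _ => by simp⟩

theorem PTtokEq : PT (fun z : Tok × Tok => decide (z.1 = z.2)) := by
  refine (PTtok (t := fun z : Tok × Tok => z.1) PT.id.fst
    (fun t z => decide (t = z.2)) fun t => ?_)
  exact PTtok (t := fun z : Tok × Tok => z.2) PT.id.snd (fun t' _ => decide (t = t'))
    fun t' => PT.const _

theorem PTskel {l : α → List Tok} (hl : PT l) : PT (fun a => skel (l a)) := by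
  have h1 : PT (fun z : α × Tok => (match z.2 with
      | Tok.s => ([] : List Tok)
      | t => [t])) := by
    refine PTtok (t := fun z : α × Tok => z.2) PT.id.snd (fun t _ => (match t with
      | Tok.s => ([] : List Tok)
      | t => [t])) fun t => PT.const _
  refine (PT.flatMap h1 hl).congr fun a => ?_
  unfold skel
  induction l a with
  | nil => rfl
  | cons t l ih =>
    rw [List.flatMap_cons, ih, List.filter_cons]
    cases t <;> rfl

/-- one step of `vnum` -/
def vst (t : Tok) (st : List ℕ) : List ℕ := match t with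
  | Tok.e => 0 :: st
  | Tok.s => (match st with
    | [] => []
    | i :: st' => (i + 1) :: st')
  | _ => st

theorem vnum_cons (t : Tok) (l : List Tok) : vnum (t :: l) = vst t (vnum l) := rfl

theorem vst_sz (t : Tok) (st : List ℕ) : sz (vst t st) ≤ sz st + 8 := by
  cases t
  case e =>
    change sz (0 :: st) ≤ _
    rw [sz_cons, sz_nat]
    omega
  case s =>
    cases st with
    | nil => change sz ([] : List ℕ) ≤ _; omega
    | cons i st =>
      change sz ((i + 1) :: st) ≤ _
      rw [sz_cons, sz_cons, sz_nat, sz_nat]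
      omega
  all_goals exact Nat.le_add_right _ _

theorem vnum_sz (l : List Tok) : sz (vnum l) ≤ 8 * l.length + 1 := by
  induction l with
  | nil => change sz ([] : List ℕ) ≤ _; rw [sz_nil]; omega
  | cons t l ih =>
    rw [vnum_cons, List.length_cons]
    have := vst_sz t (vnum l)
    omega

theorem PTvst : PT (fun z : Tok × List ℕ => vst z.1 z.2) := by
  refine PTtok (t := fun z : Tok × List ℕ => z.1) PT.id.fst (fun t z => vst t z.2) fun t => ?_
  cases t
  case e => exact PT.lcons (PT.const 0) PT.id.snd
  case s =>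
    have h1 := PT.listCase (α := Tok × List ℕ) (l := fun z => z.2) PT.id.snd
      (PT.const ([] : List ℕ)) (g := fun y => (y.2.1 + 1) :: y.2.2)
      (PT.lcons (PT.succ PT.id.snd.fst) PT.id.snd.snd)
    refine h1.congr fun z => ?_
    change _ = (match z.2 with
    | [] => []
    | i :: st' => (i + 1) :: st')
    rcases z.2 with _ | ⟨v, t⟩ <;> rfl
  all_goals exact PT.id.snd

theorem PTvnum {l : α → List Tok} (hl : PT l) : PT (fun a => vnum (l a)) := by
  obtain ⟨L, hL⟩ := hl.bound
  have hf : PT (fun z : α × (List ℕ × Tok) => vst z.2.2 z.2.1) :=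
    PTvst.comp (PT.id.snd.snd.pair PT.id.snd.fst)
  have h := PT.foldl (β := α) (σ := List ℕ) (γ := Tok) hf hl.reverse (x := fun _ => [])
    (PT.const _) (8 * L + 1) (by
      intro a k hk
      have h1 : (l a).reverse.take k = ((l a).drop ((l a).length - k)).reverse := by
        rw [List.take_reverse]
      change sz (((l a).reverse.take k).foldl (fun s t => vst t s) []) ≤ _
      rw [h1, List.foldl_reverse]
      change sz (vnum ((l a).drop ((l a).length - k))) ≤ _
      refine (vnum_sz _).trans ?_
      have h2 : ((l a).drop ((l a).length - k)).length ≤ L.eval (sz a) := by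
        refine le_trans ?_ ((length_le_sz _).trans (hL a))
        rw [List.length_drop]; omega
      simp only [Polynomial.eval_add, Polynomial.eval_mul, Polynomial.eval_ofNat,
        Polynomial.eval_one]
      omega)
  exact h.congr fun a => by rw [List.foldl_reverse]; rfl

theorem PTlk (v : List ℕ) (i : ℕ) {b : α → List ℕ} (hb : PT b) : PT (fun a => lk v (b a) i) :=
  PT.getD (PT.const _) hb (PT.const 0)

theorem PTmapc {γ : Type} [TEnc γ] (v : List β) (g : α → β → γ) (hg : ∀ i, PT (fun a => g a i)) :
    PT (fun a => v.map (g a)) := by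
  induction v with
  | nil => exact PT.const _
  | cons i v ih => exact PT.lcons (hg i) ih

theorem PTmatchb (ρ : Form) {l : α → List Tok} (hl : PT l) : PT (fun a => matchb ρ (l a)) := by
  refine PT.and (PTlistEq Tok.zero PTtokEq (PTskel hl) (PT.const _))
    (PTlistEq 0 (PT.eqN PT.id.fst PT.id.snd) (PTvnum hl) ?_)
  exact PTmapc (fvars ρ) (fun a i => lk (fvars ρ) (vnum (l a)) i) fun i => PTlk _ _ (PTvnum hl)

end tools

/-- the renaming of an instance -/
def hren (s : ℕ) (ρ : Form) (v : List ℕ) (i : ℕ) : ℕ :=
  if i < s then i else s + lk (fvars ρ) v (i - s)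

/-- translation of an instance at the level of symbols -/
def trK (s : ℕ) (own dflt : List Tok) : List (Form × Form) → List Tok
  | [] => dflt
  | (ρ, τ) :: l => if matchb ρ own = true then (τ.ren (hren s ρ (vnum own))).toks
    else trK s own dflt l

theorem trK_eq (hV : ST_VNUM) (s : ℕ) (φ ψ : Form) (D : List (Form × Form)) :
    trK s φ.toks ψ.toks D = ((trI s φ D).getD ψ).toks := by
  induction D with
  | nil => rfl
  | cons z D ih =>
    obtain ⟨ρ, τ⟩ := z
    rw [trK, trI]
    split_ifs with h
    · rw [hV.2]; rfl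
    · exact ih

section alg

variable (Γ : List Form) (s : ℕ) (D : List (Form × Form))

abbrev V3 := List Tok × (Bool × List Tok)

def anyK (own : List Tok) : Bool := Γ.any (fun ρ => matchb ρ own)

def tC0 : Tok → V3
  | Tok.e => ([Tok.e], true, List.replicate s Tok.s ++ [Tok.e])
  | t => ([t], true, [t])

def tC1 (t : Tok) (v : V3) : V3 :=
  match t with
  | Tok.not => (Tok.not :: v.1, anyK Γ (Tok.not :: v.1) || v.2.1,
      trK s (Tok.not :: v.1) (Tok.not :: v.2.2) D)
  | _ => (t :: v.1, true, t :: v.2.2)

def tm2 (t : Tok) (b : Bool) (v w : V3) : V3 :=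
  (t :: (v.1 ++ w.1), (b && (v.2.1 && w.2.1)), t :: (v.2.2 ++ w.2.2))

def fm2 (t : Tok) (v w : V3) : V3 :=
  (t :: (v.1 ++ w.1), anyK Γ (t :: (v.1 ++ w.1)) || (v.2.1 && w.2.1),
    trK s (t :: (v.1 ++ w.1)) (t :: (v.2.2 ++ w.2.2)) D)

def tC2 (t : Tok) (v w : V3) : V3 :=
  match t with
  | Tok.add => tm2 Tok.add true v w
  | Tok.sub => tm2 Tok.sub true v w
  | Tok.mul => tm2 Tok.mul false v w
  | t => fm2 Γ s D t v w

def AT : Alg Unit V3 where
  c0 t _ _ := tC0 s t
  c1 t _ _ v := tC1 Γ s D t v
  c2 t _ _ v w := tC2 Γ s D t v w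

def semT : Ob → ℕ → V3
  | Ob.num i, _ => (List.replicate i Tok.s ++ [Tok.e], true, List.replicate (s + i) Tok.s ++ [Tok.e])
  | Ob.tm t, _ => (t.toks, tlin t, (t.ren (fun i => s + i)).toks)
  | Ob.fm p, _ => (p.toks, okF Γ p, (trF s D p).toks)

theorem semT_ok (hV : ST_VNUM) (c : Unit) : (AT Γ s D).Sem c (semT Γ s D) where
  zero _ := rfl
  one _ := rfl
  e _ := rfl
  s i k := by
    simp only [semT, AT, tC1, List.replicate_succ, List.cons_append, ← Nat.add_assoc]
  x i k := rfl
  not p k := by
    simp only [semT, AT, tC1, Form.toks, okF, trF, anyK]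
    rw [← Form.toks, ← Form.toks, trK_eq hV]
  add _ _ _ := by simp only [semT, AT, tC2, tm2, Term.toks, tlin, Term.ren, Bool.true_and]
  sub _ _ _ := by simp only [semT, AT, tC2, tm2, Term.toks, tlin, Term.ren, Bool.true_and]
  mul _ _ _ := by simp only [semT, AT, tC2, tm2, Term.toks, tlin, Term.ren, Bool.false_and]
  lt a b k := by
    simp only [semT, AT, tC2, fm2, okF, trF, anyK]
    rw [← trK_eq hV]
    rfl
  le a b k := by
    simp only [semT, AT, tC2, fm2, okF, trF, anyK]
    rw [← trK_eq hV]
    rfl
  eq a b k := by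
    simp only [semT, AT, tC2, fm2, okF, trF, anyK]
    rw [← trK_eq hV]
    rfl
  ge a b k := by
    simp only [semT, AT, tC2, fm2, okF, trF, anyK]
    rw [← trK_eq hV]
    rfl
  gt a b k := by
    simp only [semT, AT, tC2, fm2, okF, trF, anyK]
    rw [← trK_eq hV]
    rfl
  and a b k := by
    simp only [semT, AT, tC2, fm2, okF, trF, anyK]
    rw [← trK_eq hV]
    rfl
  or a b k := by
    simp only [semT, AT, tC2, fm2, okF, trF, anyK]
    rw [← trK_eq hV]
    rfl

theorem PTanyK {α : Type} [TEnc α] {l : α → List Tok} (hl : PT l) :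
    PT (fun a => anyK Γ (l a)) := by
  unfold anyK
  induction Γ with
  | nil => exact PT.const _
  | cons ρ Γ ih =>
    refine (PT.or (PTmatchb ρ hl) ih).congr fun a => ?_
    rw [List.any_cons]

theorem PTtrK (hR : ST_PTREN) {α : Type} [TEnc α] {own dflt : α → List Tok} (ho : PT own)
    (hd : PT dflt) : PT (fun a => trK s (own a) (dflt a) D) := by
  induction D with
  | nil => exact hd
  | cons z D ih =>
    obtain ⟨ρ, τ⟩ := z
    refine (PT.ite (PTmatchb ρ ho) (hR τ α (fun a => hren s ρ (vnum (own a))) ?_) ih).congr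
      fun a => ?_
    · intro i
      unfold hren
      by_cases h : i < s
      · simp only [if_pos h]; exact PT.const _
      · simp only [if_neg h]
        exact PT.add (PT.const s) (PTlk _ _ (PTvnum ho))
    · rfl

theorem AT_pt (hR : ST_PTREN) : (AT Γ s D).IsPT where
  p0 t := PT.const _
  p1 t := by
    have h1 : PT (fun z : (Unit × ℕ) × V3 => z.2.1) := PT.id.snd.fst
    have h2 : PT (fun z : (Unit × ℕ) × V3 => z.2.2.1) := PT.id.snd.snd.fst
    have h3 : PT (fun z : (Unit × ℕ) × V3 => z.2.2.2) := PT.id.snd.snd.snd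
    have h4 : ∀ t : Tok, PT (fun z : (Unit × ℕ) × V3 => ((t :: z.2.1, true, t :: z.2.2.2) : V3)) :=
      fun t => (PT.lcons (PT.const t) h1).pair ((PT.const true).pair (PT.lcons (PT.const t) h3))
    cases t
    case not =>
      have h5 := PT.lcons (PT.const (α := (Unit × ℕ) × V3) Tok.not) h1
      exact h5.pair ((PT.or (PTanyK Γ h5) h2).pair (PTtrK s D hR h5
        (PT.lcons (PT.const Tok.not) h3)))
    all_goals exact h4 _
  p2 t := by
    have v1 : PT (fun z : (Unit × ℕ) × (V3 × V3) => z.2.1.1) := PT.id.snd.fst.fst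
    have v2 : PT (fun z : (Unit × ℕ) × (V3 × V3) => z.2.1.2.1) := PT.id.snd.fst.snd.fst
    have v3 : PT (fun z : (Unit × ℕ) × (V3 × V3) => z.2.1.2.2) := PT.id.snd.fst.snd.snd
    have w1 : PT (fun z : (Unit × ℕ) × (V3 × V3) => z.2.2.1) := PT.id.snd.snd.fst
    have w2 : PT (fun z : (Unit × ℕ) × (V3 × V3) => z.2.2.2.1) := PT.id.snd.snd.snd.fst
    have w3 : PT (fun z : (Unit × ℕ) × (V3 × V3) => z.2.2.2.2) := PT.id.snd.snd.snd.snd
    have h3 : ∀ t : Tok, PT (fun z : (Unit × ℕ) × (V3 × V3) =>
        (t :: (z.2.1.1 ++ z.2.2.1) : List Tok)) :=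
      fun t => PT.lcons (PT.const t) (PT.append v1 w1)
    have h4 : ∀ t : Tok, PT (fun z : (Unit × ℕ) × (V3 × V3) =>
        (t :: (z.2.1.2.2 ++ z.2.2.2.2) : List Tok)) :=
      fun t => PT.lcons (PT.const t) (PT.append v3 w3)
    have h5 : ∀ (t : Tok) (b : Bool), PT (fun z : (Unit × ℕ) × (V3 × V3) =>
        tm2 t b z.2.1 z.2.2) := fun t b =>
      (h3 t).pair ((PT.and (PT.const b) (PT.and v2 w2)).pair (h4 t))
    have h6 : ∀ t : Tok, PT (fun z : (Unit × ℕ) × (V3 × V3) => fm2 Γ s D t z.2.1 z.2.2) :=
      fun t => (h3 t).pair ((PT.or (PTanyK Γ (h3 t)) (PT.and v2 w2)).pair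
        (PTtrK s D hR (h3 t) (h4 t)))
    cases t
    case add => exact h5 _ _
    case sub => exact h5 _ _
    case mul => exact h5 _ _
    all_goals exact h6 _

end alg

section bounds

theorem vnum_le (l : List Tok) : ∀ x ∈ vnum l, x ≤ l.length := by
  induction l with
  | nil => intro x hx; exact absurd hx (List.not_mem_nil)
  | cons t l ih =>
    intro x hx
    rw [vnum_cons] at hx
    rw [List.length_cons]
    cases t
    case e =>
      change x ∈ 0 :: vnum l at hx
      rcases List.mem_cons.1 hx with h | h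
      · omega
      · exact (ih x h).trans (Nat.le_succ _)
    case s =>
      unfold vst at hx
      cases hv : vnum l with
      | nil => rw [hv] at hx; exact absurd hx (List.not_mem_nil)
      | cons i st =>
        rw [hv] at hx ih
        rcases List.mem_cons.1 hx with h | h
        · have := ih i (by simp)
          omega
        · exact (ih x (List.mem_cons_of_mem _ h)).trans (Nat.le_succ _)
    all_goals exact (ih x hx).trans (Nat.le_succ _)

theorem lk_le (v w : List ℕ) (M i : ℕ) (h : ∀ x ∈ w, x ≤ M) : lk v w i ≤ M := by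
  unfold lk
  by_cases h1 : v.idxOf i < w.length
  · rw [List.getD_eq_getElem _ _ h1]
    exact h _ (List.getElem_mem h1)
  · rw [List.getD_eq_default _ _ (by omega)]
    exact Nat.zero_le _

theorem ren_toks_le (g : ℕ → ℕ) (M : ℕ) (hg : ∀ i, g i ≤ M) (t : Term) :
    (t.ren g).toks.length ≤ (M + 2) * t.toks.length := by
  induction t with
  | zero => simp [Term.ren, Term.toks]
  | one => simp [Term.ren, Term.toks]
  | var i =>
    simp only [Term.ren, Term.toks, List.length_cons, List.length_append, List.length_replicate,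
      List.length_nil]
    have := hg i
    nlinarith
  | add a b iha ihb | sub a b iha ihb | mul a b iha ihb =>
    simp only [Term.ren, Term.toks, List.length_cons, List.length_append]
    nlinarith

theorem renF_toks_le (g : ℕ → ℕ) (M : ℕ) (hg : ∀ i, g i ≤ M) (p : Form) :
    (p.ren g).toks.length ≤ (M + 2) * p.toks.length := by
  induction p with
  | lt a b | le a b | eq a b | ge a b | gt a b =>
    have h1 := ren_toks_le g M hg a
    have h2 := ren_toks_le g M hg b
    simp only [Form.ren, Form.toks, List.length_cons, List.length_append]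
    nlinarith
  | and a b iha ihb | or a b iha ihb =>
    simp only [Form.ren, Form.toks, List.length_cons, List.length_append]
    nlinarith
  | not a iha =>
    simp only [Form.ren, Form.toks, List.length_cons]
    nlinarith

theorem shift_toks_le (s : ℕ) (t : Term) :
    (t.ren (fun i => s + i)).toks.length ≤ (s + 1) * t.toks.length := by
  induction t with
  | zero => simp [Term.ren, Term.toks]
  | one => simp [Term.ren, Term.toks]
  | var i =>
    simp only [Term.ren, Term.toks, List.length_cons, List.length_append, List.length_replicate,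
      List.length_nil]
    nlinarith
  | add a b iha ihb | sub a b iha ihb | mul a b iha ihb =>
    simp only [Term.ren, Term.toks, List.length_cons, List.length_append]
    nlinarith

theorem shiftA_toks_le (s : ℕ) (a b : Term) (t : Tok) :
    (t :: ((a.ren (fun i => s + i)).toks ++ (b.ren (fun i => s + i)).toks)).length ≤
      (s + 1) * (t :: (a.toks ++ b.toks)).length := by
  have h1 := shift_toks_le s a
  have h2 := shift_toks_le s b
  simp only [List.length_cons, List.length_append]
  nlinarith

theorem ftoks_pos (p : Form) : 1 ≤ p.toks.length := by cases p <;> simp [Form.toks]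

theorem trI_le (hV : ST_VNUM) (s K : ℕ) (φ : Form) (D : List (Form × Form))
    (hK : ∀ z ∈ D, z.2.toks.length ≤ K) (ψ : Form) (h : trI s φ D = some ψ) :
    ψ.toks.length ≤ (s + φ.toks.length + 2) * K := by
  induction D with
  | nil => simp [trI] at h
  | cons z D ih =>
    obtain ⟨ρ, τ⟩ := z
    rw [trI] at h
    split_ifs at h with h1
    · cases h
      refine (renF_toks_le _ (s + φ.toks.length) ?_ τ).trans
        (Nat.mul_le_mul_left _ (hK (ρ, τ) (by simp)))
      intro i
      split_ifs with h2
      · omega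
      · have := lk_le (fvars ρ) (fvars φ) φ.toks.length (i - s)
          (by rw [← hV.2]; exact vnum_le _)
        omega
    · exact ih (fun z hz => hK z (List.mem_cons_of_mem _ hz)) h

theorem trF_toks_le (hV : ST_VNUM) (s K : ℕ) (D : List (Form × Form))
    (hK : ∀ z ∈ D, z.2.toks.length ≤ K) (hK1 : 1 ≤ K) (L : ℕ) (φ : Form) :
    φ.toks.length ≤ L → (trF s D φ).toks.length ≤ (s + L + 2) * K * φ.toks.length := by
  have key : ∀ φ ψ : Form, φ.toks.length ≤ L →
      ψ.toks.length ≤ (s + L + 2) * K * φ.toks.length →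
      ((trI s φ D).getD ψ).toks.length ≤ (s + L + 2) * K * φ.toks.length := by
    intro φ ψ hL h
    cases h1 : trI s φ D with
    | none => exact h
    | some χ =>
      have h2 := trI_le hV s K φ D hK χ h1
      have h3 := ftoks_pos φ
      rw [Option.getD_some]
      calc χ.toks.length ≤ (s + φ.toks.length + 2) * K := h2
        _ ≤ (s + L + 2) * K := Nat.mul_le_mul_right _ (by omega)
        _ = (s + L + 2) * K * 1 := (Nat.mul_one _).symm
        _ ≤ _ := Nat.mul_le_mul_left _ h3
  have hA : ∀ (t : Tok) (a b : Term),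
      (t :: ((a.ren (fun i => s + i)).toks ++ (b.ren (fun i => s + i)).toks)).length ≤
        (s + L + 2) * K * (t :: (a.toks ++ b.toks)).length := by
    intro t a b
    refine (shiftA_toks_le s a b t).trans (Nat.mul_le_mul_right _ ?_)
    nlinarith
  have hC : 1 ≤ (s + L + 2) * K := by nlinarith
  induction φ with
  | lt a b => intro hL; exact key _ _ hL (hA _ a b)
  | le a b => intro hL; exact key _ _ hL (hA _ a b)
  | eq a b => intro hL; exact key _ _ hL (hA _ a b)
  | ge a b => intro hL; exact key _ _ hL (hA _ a b)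
  | gt a b => intro hL; exact key _ _ hL (hA _ a b)
  | and a b iha ihb | or a b iha ihb =>
    intro hL
    refine key _ _ hL ?_
    simp only [Form.toks, List.length_cons, List.length_append] at hL ⊢
    have h1 := iha (by omega)
    have h2 := ihb (by omega)
    rw [Nat.mul_add, Nat.mul_add]
    omega
  | not a iha =>
    intro hL
    refine key _ _ hL ?_
    simp only [Form.toks, List.length_cons] at hL ⊢
    have h1 := iha (by omega)
    rw [Nat.mul_add]
    omega

end bounds

section final

variable (Γ : List Form) (s : ℕ) (D : List (Form × Form))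

theorem semT_sz (hV : ST_VNUM) (K : ℕ) (hK : ∀ z ∈ D, z.2.toks.length ≤ K) (hK1 : 1 ≤ K)
    (o : Ob) (k L : ℕ) (h : o.toks.length + k ≤ L) :
    sz (semT Γ s D o k) ≤ 18 * L + 18 * ((s + L + 2) * K * L) + 30 := by
  have hb : ∀ b : Bool, sz b ≤ 3 := sz_bool
  have hKL : s + 1 ≤ (s + L + 2) * K := by nlinarith
  cases o with
  | num i =>
    have h1 := sz_toks (List.replicate i Tok.s ++ [Tok.e])
    have h2 := sz_toks (List.replicate (s + i) Tok.s ++ [Tok.e])
    simp only [Ob.toks, List.length_append, List.length_replicate, List.length_cons,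
      List.length_nil] at h h1 h2
    simp only [semT, sz_pair]
    have h3 := hb true
    have h4 : s + i + 1 ≤ (s + 1) * L := by nlinarith
    have h5 := Nat.mul_le_mul_right L hKL
    omega
  | tm t =>
    have h1 := sz_toks t.toks
    have h2 := sz_toks (t.ren (fun i => s + i)).toks
    have h3 := shift_toks_le s t
    simp only [Ob.toks] at h
    simp only [semT, sz_pair]
    have h4 := hb (tlin t)
    have h5 := Nat.mul_le_mul_right L hKL
    have h6 : (s + 1) * t.toks.length ≤ (s + 1) * L := Nat.mul_le_mul_left _ (by omega)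
    omega
  | fm p =>
    have h1 := sz_toks p.toks
    have h2 := sz_toks (trF s D p).toks
    simp only [Ob.toks] at h
    have h3 := trF_toks_le hV s K D hK hK1 L p (by omega)
    simp only [semT, sz_pair]
    have h4 := hb (okF Γ p)
    have h6 : (s + L + 2) * K * p.toks.length ≤ (s + L + 2) * K * L :=
      Nat.mul_le_mul_left _ (by omega)
    omega

theorem PTstT (hV : ST_VNUM) (hR : ST_PTREN) {α : Type} [TEnc α] {l : α → List Tok} (hl : PT l) :
    PT (fun a => astate (AT Γ s D) () (l a)) := by
  obtain ⟨L, hL⟩ := hl.bound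
  obtain ⟨K, hK, hK1⟩ : ∃ K, (∀ z ∈ D, z.2.toks.length ≤ K) ∧ 1 ≤ K := by
    refine ⟨(D.map fun z => z.2.toks.length).sum + 1, fun z hz => ?_, by omega⟩
    have := List.single_le_sum (l := D.map fun z => z.2.toks.length) (fun _ _ => Nat.zero_le _)
      _ (List.mem_map_of_mem hz)
    omega
  refine PTastate (c := fun _ => ()) (AT_pt Γ s D hR) (PT.const ()) hl
    (fun _ => semT Γ s D) (fun c => semT_ok Γ s D hV c)
    (18 * L + 18 * ((Polynomial.C s + L + 2) * Polynomial.C K * L) + 30) ?_
  intro a o k hk
  have h1 := semT_sz Γ s D hV K hK hK1 o k (L.eval (sz a))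
    (hk.trans ((length_le_sz _).trans (hL a)))
  refine h1.trans (le_of_eq ?_)
  simp only [Polynomial.eval_add, Polynomial.eval_mul, Polynomial.eval_ofNat, Polynomial.eval_C]

theorem topT (hV : ST_VNUM) (φ : Form) :
    topV (([], false, []) : V3) (astate (AT Γ s D) () φ.toks) =
      (φ.toks, okF Γ φ, (trF s D φ).toks) := by
  have h := parse_form φ [] [] rfl
  rw [List.append_nil] at h
  rw [astate_eq (semT_ok Γ s D hV ()), h]
  rfl

end final

theorem st_TRP (hV : ST_VNUM) (hR : ST_PTREN) : ST_TRP := by
  intro Γ s D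
  refine ⟨fun u => ((tk u).1.isEmpty && isForm (astate A2 0 (tk u).2)) &&
      (topV (([], false, []) : V3) (astate (AT Γ s D) () (tk u).2)).2.1,
    fun u => (topV (([], false, []) : V3) (astate (AT Γ s D) () (tk u).2)).2.2, ?_, ?_, ?_, ?_⟩
  · exact PT.and (PTisValid PT.id) (PTtopV _ (PTstT Γ s D hV hR (PTtk PT.id).snd)).snd.fst
  · exact (PTtopV _ (PTstT Γ s D hV hR (PTtk PT.id).snd)).snd.snd
  · intro u
    rw [Bool.and_eq_true, Bool.and_eq_true, List.isEmpty_iff, isForm_iff]
    constructor
    · rintro ⟨⟨h1, φ, h2⟩, h3⟩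
      have hu : u = φ.code := (decode_iff u φ).2 ⟨h1, h2⟩
      refine ⟨φ, hu, ?_⟩
      rw [hu, Form.code, tk_complete, topT Γ s D hV] at h3
      exact h3
    · rintro ⟨φ, hu, h3⟩
      have h4 := (decode_iff u φ).1 hu
      refine ⟨⟨h4.1, φ, h4.2⟩, ?_⟩
      rw [hu, Form.code, tk_complete, topT Γ s D hV]
      exact h3
  · intro φ _
    change (topV (([], false, []) : V3) (astate (AT Γ s D) () (tk φ.code).2)).2.2 = _
    rw [Form.code, tk_complete, topT Γ s D hV]

end Pool.Agent.Helper54.DI
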